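import Mathlib.Topology.Sheaves.Presheaf
import Mathlib.Analysis.PSeries
import Mathlib.Algebra.Order.Archimedean.Real.Hom
import Mathlib.Combinatorics.SimpleGraph.Basic
import Mathlib.Data.Nat.Nth
import Mathlib.RingTheory.PiTensorProduct
import Mathlib.Order.CompletePartialOrder
import Mathlib.Probability.Moments.Basic
import Mathlib.Tactic.Algebra.Basic

-- ======== part 0: formerly Pool.Agent.MP_154433_an.State
section MrgPart0

set_option autoImplicit false

/-! States on commutative normed algebras, ultralimits of states, lifts of automorphisms. -/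

open Filter Topology BoundedContinuousFunction

namespace Pool.Agent.MP_154433_an

variable {R : Type} [NormedCommRing R] [NormedAlgebra ℝ R]

structure IsState (φ : R →ₗ[ℝ] ℝ) : Prop where
  nonneg : ∀ a, 0 ≤ φ (a * a)
  mul_le : ∀ a b, φ (a * a * b) ≤ ‖b‖ * φ (a * a)
  one_le : φ 1 ≤ 1

namespace IsState

variable {φ : R →ₗ[ℝ] ℝ}

lemma one_nonneg (h : IsState φ) : 0 ≤ φ 1 := by
  simpa using h.nonneg 1

lemma le_norm (h : IsState φ) (a : R) : φ a ≤ ‖a‖ := by
  have h1 := h.mul_le 1 a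
  simp only [one_mul, mul_one] at h1
  have := h.one_le
  have h2 := norm_nonneg a
  nlinarith

lemma abs_le (h : IsState φ) (a : R) : |φ a| ≤ ‖a‖ := by
  rw [_root_.abs_le]
  refine ⟨?_, h.le_norm a⟩
  have := h.le_norm (-a)
  rw [map_neg, norm_neg] at this
  linarith

lemma sq_le (h : IsState φ) (a : R) : φ (a * a) ≤ ‖a‖ ^ 2 := by
  refine (h.le_norm _).trans ?_
  rw [sq]; exact norm_mul_le _ _

lemma mul_sq_le (h : IsState φ) (a b : R) : φ (b * a * (b * a)) ≤ ‖b‖ ^ 2 * φ (a * a) := by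
  have h1 := h.mul_le a (b * b)
  have h2 : ‖b * b‖ ≤ ‖b‖ ^ 2 := by rw [sq]; exact norm_mul_le _ _
  have h3 := h.nonneg a
  calc φ (b * a * (b * a)) = φ (a * a * (b * b)) := by congr 1; ring
    _ ≤ ‖b * b‖ * φ (a * a) := h1
    _ ≤ _ := mul_le_mul_of_nonneg_right h2 h3

lemma expand (φ : R →ₗ[ℝ] ℝ) (a b : R) (t : ℝ) :
    φ ((a - t • b) * (a - t • b)) = φ (a * a) - 2 * t * φ (a * b) + t ^ 2 * φ (b * b) := by
  have : (a - t • b) * (a - t • b) = a * a - (2 * t) • (a * b) + (t ^ 2) • (b * b) := by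
    simp only [Algebra.smul_def, map_mul, map_pow, map_ofNat]
    ring
  rw [this, map_add, map_sub, map_smul, map_smul, smul_eq_mul, smul_eq_mul]

/-- `2 t φ(ab) ≤ φ(a²) + t² φ(b²)`. -/
lemma two_mul_le (h : IsState φ) (a b : R) (t : ℝ) :
    2 * t * φ (a * b) ≤ φ (a * a) + t ^ 2 * φ (b * b) := by
  have := h.nonneg (a - t • b)
  rw [expand] at this
  linarith

lemma add_sq_le (h : IsState φ) (a b : R) :
    φ ((a + b) * (a + b)) ≤ 2 * φ (a * a) + 2 * φ (b * b) := by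
  have h1 := h.two_mul_le a b 1
  have h2 := expand φ a b (-1)
  simp only [neg_smul, one_smul, sub_neg_eq_add] at h2
  rw [h2]; nlinarith

/-- Jensen for the quadratic form. -/
lemma avg_sq_le (h : IsState φ) (M : ℕ) (a : ℕ → R) :
    φ (((M : ℝ)⁻¹ • ∑ m ∈ Finset.range M, a m) * ((M : ℝ)⁻¹ • ∑ m ∈ Finset.range M, a m)) ≤
      (M : ℝ)⁻¹ * ∑ m ∈ Finset.range M, φ (a m * a m) := by
  rcases Nat.eq_zero_or_pos M with rfl | hM
  · simp
  have hM' : (0 : ℝ) < M := by exact_mod_cast hM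
  rw [smul_mul_smul_comm, map_smul, Finset.sum_mul_sum, map_sum, smul_eq_mul]
  simp only [map_sum]
  have key : ∑ i ∈ Finset.range M, ∑ j ∈ Finset.range M, φ (a i * a j) ≤
      M * ∑ m ∈ Finset.range M, φ (a m * a m) := by
    have h1 : ∑ i ∈ Finset.range M, ∑ j ∈ Finset.range M, φ (a i * a j) ≤
        ∑ i ∈ Finset.range M, ∑ j ∈ Finset.range M, (φ (a i * a i) + φ (a j * a j)) / 2 := by
      refine Finset.sum_le_sum fun i _ => Finset.sum_le_sum fun j _ => ?_
      have := h.two_mul_le (a i) (a j) 1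
      linarith
    refine h1.trans (le_of_eq ?_)
    simp only [add_div, Finset.sum_add_distrib, Finset.sum_const, Finset.card_range, nsmul_eq_mul,
      ← Finset.sum_div, ← Finset.mul_sum]
    ring
  calc (M : ℝ)⁻¹ * (M : ℝ)⁻¹ * ∑ i ∈ Finset.range M, ∑ j ∈ Finset.range M, φ (a i * a j)
      ≤ (M : ℝ)⁻¹ * (M : ℝ)⁻¹ * (M * ∑ m ∈ Finset.range M, φ (a m * a m)) :=
        mul_le_mul_of_nonneg_left key (by positivity)
    _ = _ := by field_simp

end IsState

/-- Ultralimit of a sequence of states. -/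
lemma exists_ulim (ψ : ℕ → R →ₗ[ℝ] ℝ) (h : ∀ k, IsState (ψ k)) :
    ∃ φ : R →ₗ[ℝ] ℝ, IsState φ ∧
      ∀ a, Tendsto (fun k => ψ k a) (hyperfilter ℕ : Filter ℕ) (𝓝 (φ a)) := by
  have ex : ∀ a : R, ∃ x : ℝ, Tendsto (fun k => ψ k a) (hyperfilter ℕ : Filter ℕ) (𝓝 x) := by
    intro a
    have hc : IsCompact (Set.Icc (-‖a‖) ‖a‖) := isCompact_Icc
    obtain ⟨x, -, hx⟩ := hc.ultrafilter_le_nhds' ((hyperfilter ℕ).map fun k => ψ k a) (by
      rw [Ultrafilter.mem_map]
      refine Filter.univ_mem' fun k => ?_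
      exact abs_le.1 ((h k).abs_le a))
    exact ⟨x, hx⟩
  choose L hL using ex
  let φ : R →ₗ[ℝ] ℝ :=
    { toFun := L
      map_add' := fun a b => by
        refine tendsto_nhds_unique (hL (a + b)) ?_
        simpa only [map_add] using (hL a).add (hL b)
      map_smul' := fun c a => by
        refine tendsto_nhds_unique (hL (c • a)) ?_
        simpa only [map_smul, smul_eq_mul, RingHom.id_apply] using (hL a).const_mul c }
  refine ⟨φ, ⟨fun a => ?_, fun a b => ?_, ?_⟩, hL⟩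
  · exact ge_of_tendsto' (hL (a * a)) fun k => (h k).nonneg a
  · exact le_of_tendsto_of_tendsto' (hL (a * a * b)) ((hL (a * a)).const_mul ‖b‖)
      fun k => (h k).mul_le a b
  · exact le_of_tendsto' (hL 1) fun k => (h k).one_le

/-- Isometric state preserving automorphisms. -/
def pres (φ : R →ₗ[ℝ] ℝ) : Subgroup (R ≃ₐ[ℝ] R) where
  carrier := {U | (∀ a, ‖U a‖ = ‖a‖) ∧ ∀ a, φ (U a) = φ a}
  one_mem' := ⟨fun _ => rfl, fun _ => rfl⟩
  mul_mem' := by
    rintro U V ⟨h1, h2⟩ ⟨h3, h4⟩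
    exact ⟨fun a => by rw [AlgEquiv.mul_apply, h1, h3], fun a => by rw [AlgEquiv.mul_apply, h2, h4]⟩
  inv_mem' := by
    rintro U ⟨h1, h2⟩
    refine ⟨fun a => ?_, fun a => ?_⟩
    · rw [← h1]; congr 1; exact U.apply_symm_apply a
    · rw [← h2]; congr 1; exact U.apply_symm_apply a

/-- `U'` acts on bounded sequences coordinatewise as `U`. -/
def Lifts (U' : (ℕ →ᵇ R) ≃ₐ[ℝ] (ℕ →ᵇ R)) (U : R ≃ₐ[ℝ] R) : Prop := ∀ F k, U' F k = U (F k)

lemma exists_lift (U : R ≃ₐ[ℝ] R) (hU : ∀ a, ‖U a‖ = ‖a‖) : ∃ U', Lifts U' U := by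
  have hU' : ∀ a, ‖U.symm a‖ = ‖a‖ := fun a => by rw [← hU, U.apply_symm_apply]
  refine ⟨
    { toFun := fun F => ofNormedAddCommGroupDiscrete (fun k => U (F k)) ‖F‖
        fun k => by rw [hU]; exact F.norm_coe_le_norm k
      invFun := fun F => ofNormedAddCommGroupDiscrete (fun k => U.symm (F k)) ‖F‖
        fun k => by rw [hU']; exact F.norm_coe_le_norm k
      left_inv := fun F => by ext k; simp
      right_inv := fun F => by ext k; simp
      map_mul' := fun F G => by ext k; simp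
      map_add' := fun F G => by ext k; simp
      commutes' := fun c => by
        ext k
        simp [Algebra.algebraMap_eq_smul_one] }, fun F k => rfl⟩

namespace Lifts

variable {U' V' : (ℕ →ᵇ R) ≃ₐ[ℝ] (ℕ →ᵇ R)} {U V : R ≃ₐ[ℝ] R}

lemma pow (h : Lifts U' U) (n : ℕ) : Lifts (U' ^ n) (U ^ n) := by
  induction n with
  | zero => intro F k; rfl
  | succ n ih => intro F k; rw [pow_succ, pow_succ, AlgEquiv.mul_apply, AlgEquiv.mul_apply, ih, h]

lemma commute (h : Lifts U' U) (h' : Lifts V' V) (hc : Commute U V) : Commute U' V' := by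
  refine AlgEquiv.ext fun F => ?_
  ext k
  rw [AlgEquiv.mul_apply, AlgEquiv.mul_apply, h, h', h', h, ← AlgEquiv.mul_apply,
    ← AlgEquiv.mul_apply, hc.eq]

lemma norm_eq (h : Lifts U' U) (hU : ∀ a, ‖U a‖ = ‖a‖) (F : ℕ →ᵇ R) : ‖U' F‖ = ‖F‖ := by
  apply le_antisymm
  · refine (norm_le (norm_nonneg _)).2 fun k => ?_
    rw [h, hU]; exact F.norm_coe_le_norm k
  · refine (norm_le (norm_nonneg _)).2 fun k => ?_
    rw [← hU, ← h]; exact (U' F).norm_coe_le_norm k

end Lifts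

/-- Evaluation of a state at a coordinate. -/
noncomputable def evalState (φ : R →ₗ[ℝ] ℝ) (k : ℕ) : (ℕ →ᵇ R) →ₗ[ℝ] ℝ where
  toFun F := φ (F k)
  map_add' F G := by simp
  map_smul' c F := by simp

@[simp] lemma evalState_apply (φ : R →ₗ[ℝ] ℝ) (k : ℕ) (F : ℕ →ᵇ R) :
    evalState φ k F = φ (F k) := rfl

lemma evalState_isState {φ : R →ₗ[ℝ] ℝ} (h : IsState φ) (k : ℕ) : IsState (evalState φ k) := by
  refine ⟨fun a => h.nonneg (a k), fun a b => ?_, h.one_le⟩
  exact (h.mul_le (a k) (b k)).trans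
    (mul_le_mul_of_nonneg_right (b.norm_coe_le_norm k) (h.nonneg _))

/-- Average of the first `M` coordinates. -/
noncomputable def avgState (φ : R →ₗ[ℝ] ℝ) (M : ℕ) : (ℕ →ᵇ R) →ₗ[ℝ] ℝ :=
  (M : ℝ)⁻¹ • ∑ m ∈ Finset.range M, evalState φ m

lemma avgState_apply (φ : R →ₗ[ℝ] ℝ) (M : ℕ) (F : ℕ →ᵇ R) :
    avgState φ M F = (M : ℝ)⁻¹ * ∑ m ∈ Finset.range M, φ (F m) := by
  simp [avgState]

lemma avgState_isState {φ : R →ₗ[ℝ] ℝ} (h : IsState φ) (M : ℕ) : IsState (avgState φ M) := by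
  refine ⟨fun a => ?_, fun a b => ?_, ?_⟩
  · rw [avgState_apply]
    exact mul_nonneg (by positivity) (Finset.sum_nonneg fun m _ => h.nonneg (a m))
  · rw [avgState_apply, avgState_apply, mul_left_comm, Finset.mul_sum _ _ ‖b‖]
    refine mul_le_mul_of_nonneg_left (Finset.sum_le_sum fun m _ => ?_) (by positivity)
    exact (evalState_isState h m).mul_le a b
  · rw [avgState_apply]
    rcases Nat.eq_zero_or_pos M with rfl | hM
    · simp
    have hM' : (0 : ℝ) < M := by exact_mod_cast hM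
    have : ∑ m ∈ Finset.range M, φ ((1 : ℕ →ᵇ R) m) ≤ M := by
      calc ∑ m ∈ Finset.range M, φ ((1 : ℕ →ᵇ R) m) ≤ ∑ m ∈ Finset.range M, (1 : ℝ) :=
            Finset.sum_le_sum fun m _ => h.one_le
        _ = M := by simp
    calc (M : ℝ)⁻¹ * ∑ m ∈ Finset.range M, φ ((1 : ℕ →ᵇ R) m) ≤ (M : ℝ)⁻¹ * M :=
          mul_le_mul_of_nonneg_left this (by positivity)
      _ = 1 := by field_simp

end Pool.Agent.MP_154433_an

end MrgPart0

-- ======== part 1: formerly Pool.Agent.MP_154433_an.Tao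
section MrgPart1

set_option autoImplicit false

/-! Norm convergence of multiple averages for commuting automorphisms, for states
(finitely additive setting), by energy decrement. -/

open Filter Topology BoundedContinuousFunction

namespace Pool.Agent.MP_154433_an

section
variable {R : Type} [NormedCommRing R] [NormedAlgebra ℝ R]

noncomputable def avg (u : ℕ → R) (N : ℕ) : R := (N : ℝ)⁻¹ • ∑ n ∈ Finset.range N, u n

def Cau (φ : R →ₗ[ℝ] ℝ) (u : ℕ → R) : Prop :=
  ∀ ε > 0, ∃ N0, ∀ N ≥ N0, ∀ N' ≥ N0, φ ((u N - u N') * (u N - u N')) ≤ ε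

noncomputable def term {ℓ : ℕ} (T : Fin ℓ → R ≃ₐ[ℝ] R) (f : Fin ℓ → R) (n : ℕ) : R :=
  ∏ i, (T i ^ n) (f i)

lemma norm_avg_le {u : ℕ → R} {N : ℕ} {C : ℝ} (hC : 0 ≤ C) (h : ∀ n < N, ‖u n‖ ≤ C) :
    ‖avg u N‖ ≤ C := by
  rcases Nat.eq_zero_or_pos N with rfl | hN
  · simpa [avg] using hC
  have hN' : (0 : ℝ) < N := by exact_mod_cast hN
  have h1 : ‖∑ n ∈ Finset.range N, u n‖ ≤ N * C := by
    refine (norm_sum_le _ _).trans ?_
    calc ∑ n ∈ Finset.range N, ‖u n‖ ≤ ∑ n ∈ Finset.range N, C :=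
          Finset.sum_le_sum fun n hn => h n (Finset.mem_range.1 hn)
      _ = N * C := by simp
  rw [avg, norm_smul, Real.norm_eq_abs, abs_of_nonneg (by positivity)]
  calc (N : ℝ)⁻¹ * ‖∑ n ∈ Finset.range N, u n‖ ≤ (N : ℝ)⁻¹ * (N * C) :=
        mul_le_mul_of_nonneg_left h1 (by positivity)
    _ = C := by field_simp

lemma avg_sub (u v : ℕ → R) (N : ℕ) : avg (fun n => u n - v n) N = avg u N - avg v N := by
  simp only [avg, Finset.sum_sub_distrib, smul_sub]

lemma avg_add (u v : ℕ → R) (N : ℕ) : avg (fun n => u n + v n) N = avg u N + avg v N := by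
  simp only [avg, Finset.sum_add_distrib, smul_add]

lemma avg_smul (c : ℝ) (u : ℕ → R) (N : ℕ) : avg (fun n => c • u n) N = c • avg u N := by
  simp only [avg, ← Finset.smul_sum, smul_comm c]

lemma mul_avg (b : R) (u : ℕ → R) (N : ℕ) : b * avg u N = avg (fun n => b * u n) N := by
  simp only [avg, mul_smul_comm, Finset.mul_sum]

lemma avg_mul (b : R) (u : ℕ → R) (N : ℕ) : avg u N * b = avg (fun n => u n * b) N := by
  simp only [avg, smul_mul_assoc, Finset.sum_mul]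

lemma avg_comm (u : ℕ → ℕ → R) (N M : ℕ) :
    avg (fun n => avg (fun m => u n m) M) N = avg (fun m => avg (fun n => u n m) N) M := by
  simp only [avg, ← Finset.smul_sum]
  rw [Finset.sum_comm, smul_comm]

lemma map_avg (U : R ≃ₐ[ℝ] R) (u : ℕ → R) (N : ℕ) : U (avg u N) = avg (fun n => U (u n)) N := by
  simp only [avg, map_smul, map_sum]

lemma state_avg (φ : R →ₗ[ℝ] ℝ) (u : ℕ → R) (N : ℕ) :
    φ (avg u N) = (N : ℝ)⁻¹ * ∑ n ∈ Finset.range N, φ (u n) := by
  simp only [avg, map_smul, map_sum, smul_eq_mul]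

lemma norm_avg_shift {a : ℕ → R} {C : ℝ} (h : ∀ m, ‖a m‖ ≤ C) (M n : ℕ) :
    ‖avg a M - avg (fun m => a (m + n)) M‖ ≤ (M : ℝ)⁻¹ * (2 * n * C) := by
  have e1 := Finset.sum_range_add a n M
  have e2 := Finset.sum_range_add a M n
  rw [add_comm n M] at e1
  have e3 : ∑ m ∈ Finset.range M, a m - ∑ m ∈ Finset.range M, a (m + n) =
      ∑ m ∈ Finset.range n, a m - ∑ m ∈ Finset.range n, a (M + m) := by
    have : ∑ m ∈ Finset.range M, a (m + n) = ∑ m ∈ Finset.range M, a (n + m) :=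
      Finset.sum_congr rfl fun m _ => by rw [add_comm]
    rw [this]
    linear_combination (exp := 1) e1 - e2
  have hb : ∀ g : ℕ → ℕ, ‖∑ m ∈ Finset.range n, a (g m)‖ ≤ n * C := fun g => by
    refine (norm_sum_le _ _).trans ?_
    calc ∑ m ∈ Finset.range n, ‖a (g m)‖ ≤ ∑ m ∈ Finset.range n, C :=
          Finset.sum_le_sum fun m _ => h _
      _ = n * C := by simp
  rw [avg, avg, ← smul_sub, e3, norm_smul, Real.norm_eq_abs, abs_of_nonneg (by positivity)]
  refine mul_le_mul_of_nonneg_left ((norm_sub_le _ _).trans ?_) (by positivity)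
  have := hb id
  have := hb (fun m => M + m)
  simp only [id] at *
  linarith

lemma norm_term_le [NormOneClass R] {ℓ : ℕ} {φ : R →ₗ[ℝ] ℝ} {T : Fin ℓ → R ≃ₐ[ℝ] R}
    {f : Fin ℓ → R} (hT : ∀ i, T i ∈ pres φ) (hf : ∀ i, ‖f i‖ ≤ 1) (n : ℕ) :
    ‖term T f n‖ ≤ 1 := by
  refine (Finset.norm_prod_le _ _).trans ?_
  refine Finset.prod_le_one (fun i _ => norm_nonneg _) fun i _ => ?_
  rw [((pres φ).pow_mem (hT i) n).1]
  exact hf i

lemma Cau.add_smul {φ : R →ₗ[ℝ] ℝ} (hφ : IsState φ) {u v : ℕ → R} (hu : Cau φ u) (hv : Cau φ v)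
    (c : ℝ) : Cau φ (fun N => u N + c • v N) := by
  intro ε hε
  obtain ⟨N1, h1⟩ := hu (ε / 4) (by positivity)
  obtain ⟨N2, h2⟩ := hv (ε / (4 * (c ^ 2 + 1))) (by positivity)
  refine ⟨max N1 N2, fun N hN N' hN' => ?_⟩
  have a1 := h1 N (le_of_max_le_left hN) N' (le_of_max_le_left hN')
  have a2 := h2 N (le_of_max_le_right hN) N' (le_of_max_le_right hN')
  have e : u N + c • v N - (u N' + c • v N') = (u N - u N') + c • (v N - v N') := by
    rw [smul_sub]; ring
  simp only [e]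
  refine (hφ.add_sq_le _ _).trans ?_
  rw [smul_mul_smul_comm, map_smul, smul_eq_mul]
  have a3 : c * c * φ ((v N - v N') * (v N - v N')) ≤ c * c * (ε / (4 * (c ^ 2 + 1))) :=
    mul_le_mul_of_nonneg_left a2 (mul_self_nonneg c)
  have a4 : c * c * (ε / (4 * (c ^ 2 + 1))) ≤ ε / 4 := by
    rw [mul_div_assoc', div_le_div_iff₀ (by positivity) (by positivity)]
    nlinarith [mul_self_nonneg c]
  linarith

/-- The dual function. -/
noncomputable def dual {ℓ : ℕ} (U : R ≃ₐ[ℝ] R) (T : Fin ℓ → R ≃ₐ[ℝ] R) (f : Fin ℓ → R) (B : R)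
    (M : ℕ) : R := avg (fun m => (U⁻¹ ^ m) (B * term T f m)) M

/-- The functions of the lower order average. -/
noncomputable def lower {ℓ : ℕ} (U : R ≃ₐ[ℝ] R) (T : Fin ℓ → R ≃ₐ[ℝ] R) (f : Fin ℓ → R)
    (m : ℕ) (i : Fin ℓ) : R := f i * (U⁻¹ ^ m) ((T i ^ m) (f i))

/-- The average of order `ℓ + 1`. -/
noncomputable def avg2 {ℓ : ℕ} (U : R ≃ₐ[ℝ] R) (T : Fin ℓ → R ≃ₐ[ℝ] R) (f : Fin ℓ → R) (h : R)
    (N : ℕ) : R := avg (fun n => (U ^ n) h * term T f n) N

variable {ℓ : ℕ} {φ : R →ₗ[ℝ] ℝ} {U : R ≃ₐ[ℝ] R} {T : Fin ℓ → R ≃ₐ[ℝ] R} {f : Fin ℓ → R}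

lemma shift_identity (hc : ∀ i, Commute U (T i)) (B : R) (m n : ℕ) :
    (U ^ n) ((U⁻¹ ^ (m + n)) (B * term T f (m + n))) * term T f n =
      (U⁻¹ ^ m) B * term T (lower U T f m) n := by
  have e1 : ∀ z, (U ^ n) ((U⁻¹ ^ (m + n)) z) = (U⁻¹ ^ m) z := fun z => by
    rw [← AlgEquiv.mul_apply, add_comm, pow_add, ← mul_assoc, inv_pow U n, mul_inv_cancel, one_mul]
  rw [e1, map_mul, mul_assoc]
  congr 1
  simp only [term, lower, map_prod, map_mul, ← Finset.prod_mul_distrib]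
  refine Finset.prod_congr rfl fun i _ => ?_
  rw [mul_comm]
  congr 1
  have hcm : Commute (U⁻¹ ^ m) (T i ^ n) := ((hc i).inv_left.pow_left m).pow_right n
  rw [← AlgEquiv.mul_apply, ← AlgEquiv.mul_apply, ← AlgEquiv.mul_apply, add_comm m n, pow_add,
    ← mul_assoc, hcm.eq]

lemma norm_dual_term [NormOneClass R] (hU : U ∈ pres φ) (hT : ∀ i, T i ∈ pres φ)
    (hf : ∀ i, ‖f i‖ ≤ 1) {B : R} (hB : ‖B‖ ≤ 2) (m : ℕ) :
    ‖(U⁻¹ ^ m) (B * term T f m)‖ ≤ 2 := by
  rw [((pres φ).pow_mem ((pres φ).inv_mem hU) m).1]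
  refine (norm_mul_le _ _).trans ?_
  have := norm_term_le hT hf m
  nlinarith [norm_nonneg B, norm_nonneg (term T f m)]

lemma norm_dual [NormOneClass R] (hU : U ∈ pres φ) (hT : ∀ i, T i ∈ pres φ)
    (hf : ∀ i, ‖f i‖ ≤ 1) {B : R} (hB : ‖B‖ ≤ 2) (M : ℕ) : ‖dual U T f B M‖ ≤ 2 :=
  norm_avg_le (by norm_num) fun m _ => norm_dual_term hU hT hf hB m

lemma norm_lower (hU : U ∈ pres φ) (hT : ∀ i, T i ∈ pres φ)
    (hf : ∀ i, ‖f i‖ ≤ 1) (m : ℕ) (i : Fin ℓ) : ‖lower U T f m i‖ ≤ 1 := by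
  refine (norm_mul_le _ _).trans ?_
  rw [((pres φ).pow_mem ((pres φ).inv_mem hU) m).1, ((pres φ).pow_mem (hT i) m).1]
  have := hf i
  nlinarith [norm_nonneg (f i)]

lemma avg2_dual_approx [NormOneClass R] (hU : U ∈ pres φ) (hT : ∀ i, T i ∈ pres φ)
    (hc : ∀ i, Commute U (T i)) (hf : ∀ i, ‖f i‖ ≤ 1) {B : R} (hB : ‖B‖ ≤ 2) (M N : ℕ) :
    ‖avg2 U T f (dual U T f B M) N -
      avg (fun m => (U⁻¹ ^ m) B * avg (term T (lower U T f m)) N) M‖ ≤ (M : ℝ)⁻¹ * (4 * N) := by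
  set a : ℕ → R := fun m => (U⁻¹ ^ m) (B * term T f m) with ha
  have e : avg (fun m => (U⁻¹ ^ m) B * avg (term T (lower U T f m)) N) M =
      avg (fun n => (U ^ n) (avg (fun m => a (m + n)) M) * term T f n) N := by
    simp only [mul_avg, map_avg, avg_mul, ha, shift_identity hc]
    rw [avg_comm]
  rw [e, avg2, ← avg_sub]
  refine norm_avg_le (by positivity) fun n hn => ?_
  rw [← sub_mul, ← map_sub]
  refine (norm_mul_le _ _).trans ?_
  rw [((pres φ).pow_mem hU n).1]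
  have h1 := norm_avg_shift (a := a) (norm_dual_term hU hT hf hB) M n
  have h2 := norm_term_le hT hf n
  have h3 : (n : ℝ) ≤ N := by exact_mod_cast hn.le
  have h4 : (M : ℝ)⁻¹ * (2 * n * 2) ≤ (M : ℝ)⁻¹ * (4 * N) :=
    mul_le_mul_of_nonneg_left (by linarith) (by positivity)
  calc ‖dual U T f B M - avg (fun m => a (m + n)) M‖ * ‖term T f n‖
      ≤ ((M : ℝ)⁻¹ * (2 * n * 2)) * 1 :=
        mul_le_mul h1 h2 (norm_nonneg _) (by positivity)
    _ ≤ _ := by linarith

lemma avg2_dual_le [NormOneClass R] (hφ : IsState φ) (hU : U ∈ pres φ) (hT : ∀ i, T i ∈ pres φ)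
    (hc : ∀ i, Commute U (T i)) (hf : ∀ i, ‖f i‖ ≤ 1) {B : R} (hB : ‖B‖ ≤ 2) (M N N' : ℕ) :
    φ ((avg2 U T f (dual U T f B M) N - avg2 U T f (dual U T f B M) N') *
      (avg2 U T f (dual U T f B M) N - avg2 U T f (dual U T f B M) N')) ≤
      8 * ((M : ℝ)⁻¹ * ∑ m ∈ Finset.range M,
        φ ((avg (term T (lower U T f m)) N - avg (term T (lower U T f m)) N') *
          (avg (term T (lower U T f m)) N - avg (term T (lower U T f m)) N'))) +
      2 * ((M : ℝ)⁻¹ * (4 * N + 4 * N')) ^ 2 := by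
  set D : ℕ → R := fun m => avg (term T (lower U T f m)) N - avg (term T (lower U T f m)) N'
  set mn : ℕ → R := fun N => avg (fun m => (U⁻¹ ^ m) B * avg (term T (lower U T f m)) N) M
  set X : ℕ → R := fun N => avg2 U T f (dual U T f B M) N
  have h1 : ‖X N - mn N‖ ≤ (M : ℝ)⁻¹ * (4 * N) := avg2_dual_approx hU hT hc hf hB M N
  have h2 : ‖X N' - mn N'‖ ≤ (M : ℝ)⁻¹ * (4 * N') := avg2_dual_approx hU hT hc hf hB M N'
  have e : X N - X N' = avg (fun m => (U⁻¹ ^ m) B * D m) M + ((X N - mn N) - (X N' - mn N')) := by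
    have : avg (fun m => (U⁻¹ ^ m) B * D m) M = mn N - mn N' := by
      simp only [D, mn, mul_sub, avg_sub]
    rw [this]; ring
  change φ ((X N - X N') * (X N - X N')) ≤ _
  rw [e]
  refine (hφ.add_sq_le _ _).trans (add_le_add ?_ ?_)
  · have h3 := hφ.avg_sq_le M (fun m => (U⁻¹ ^ m) B * D m)
    have h4 : ∑ m ∈ Finset.range M, φ ((U⁻¹ ^ m) B * D m * ((U⁻¹ ^ m) B * D m)) ≤
        4 * ∑ m ∈ Finset.range M, φ (D m * D m) := by
      rw [Finset.mul_sum]
      refine Finset.sum_le_sum fun m _ => (hφ.mul_sq_le _ _).trans ?_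
      refine mul_le_mul_of_nonneg_right ?_ (hφ.nonneg _)
      rw [((pres φ).pow_mem ((pres φ).inv_mem hU) m).1]
      nlinarith [norm_nonneg B]
    have h5 := mul_le_mul_of_nonneg_left h4 (by positivity : (0 : ℝ) ≤ (M : ℝ)⁻¹)
    change 2 * φ (((M : ℝ)⁻¹ • _) * ((M : ℝ)⁻¹ • _)) ≤ 8 * ((M : ℝ)⁻¹ *
      ∑ m ∈ Finset.range M, φ (D m * D m))
    linarith
  · refine mul_le_mul_of_nonneg_left ((hφ.sq_le _).trans ?_) (by norm_num)
    refine pow_le_pow_left₀ (norm_nonneg _) ((norm_sub_le _ _).trans ?_) 2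
    linarith

lemma state_mul_avg2 (hU : U ∈ pres φ) (B g : R) (M : ℕ) :
    φ (B * avg2 U T f g M) = φ (dual U T f B M * g) := by
  rw [avg2, dual, mul_avg, avg_mul, state_avg, state_avg]
  congr 1
  refine Finset.sum_congr rfl fun m _ => ?_
  rw [← ((pres φ).pow_mem ((pres φ).inv_mem hU) m).2]
  congr 1
  have : (U⁻¹ ^ m) ((U ^ m) g) = g := by
    rw [← AlgEquiv.mul_apply, inv_pow, inv_mul_cancel, AlgEquiv.one_apply]
  rw [show B * ((U ^ m) g * term T f m) = (B * term T f m) * (U ^ m) g by ring, map_mul, this]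

lemma avg2_sub (g h : R) (N : ℕ) : avg2 U T f (g - h) N = avg2 U T f g N - avg2 U T f h N := by
  simp only [avg2, map_sub, sub_mul, avg_sub]

lemma avg2_add_smul (g h : R) (c : ℝ) (N : ℕ) :
    avg2 U T f (g + c • h) N = avg2 U T f g N + c • avg2 U T f h N := by
  simp only [avg2, map_add, map_smul, add_mul, smul_mul_assoc, avg_add, avg_smul]

lemma norm_avg2 [NormOneClass R] (hU : U ∈ pres φ) (hT : ∀ i, T i ∈ pres φ)
    (hf : ∀ i, ‖f i‖ ≤ 1) {h : R} (hh : ‖h‖ ≤ 1) (N : ℕ) : ‖avg2 U T f h N‖ ≤ 1 := by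
  refine norm_avg_le (by norm_num) fun n _ => (norm_mul_le _ _).trans ?_
  rw [((pres φ).pow_mem hU n).1]
  have := norm_term_le hT hf n
  nlinarith [norm_nonneg h, norm_nonneg (term T f n)]

/-- Evaluation as an algebra map. -/
noncomputable def evalHom (k : ℕ) : (ℕ →ᵇ R) →ₐ[ℝ] R where
  toFun F := F k
  map_one' := rfl
  map_mul' _ _ := rfl
  map_zero' := rfl
  map_add' _ _ := rfl
  commutes' c := by simp [Algebra.algebraMap_eq_smul_one]

lemma avg_apply (u : ℕ → ℕ →ᵇ R) (N k : ℕ) : avg u N k = avg (fun n => u n k) N := by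
  change evalHom k (avg u N) = avg (fun n => evalHom k (u n)) N
  simp only [avg, map_smul, map_sum]

lemma term_apply {T' : Fin ℓ → (ℕ →ᵇ R) ≃ₐ[ℝ] (ℕ →ᵇ R)} (hT : ∀ i, Lifts (T' i) (T i))
    (F : Fin ℓ → ℕ →ᵇ R) (n k : ℕ) : term T' F n k = term T (fun i => F i k) n := by
  change evalHom k (term T' F n) = _
  simp only [term, map_prod]
  exact Finset.prod_congr rfl fun i _ => (hT i).pow n (F i) k

lemma avg2_apply {T' : Fin ℓ → (ℕ →ᵇ R) ≃ₐ[ℝ] (ℕ →ᵇ R)} (hT : ∀ i, Lifts (T' i) (T i))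
    {U' : (ℕ →ᵇ R) ≃ₐ[ℝ] (ℕ →ᵇ R)} (hU : Lifts U' U)
    (F : Fin ℓ → ℕ →ᵇ R) (H : ℕ →ᵇ R) (N k : ℕ) :
    avg2 U' T' F H N k = avg2 U T (fun i => F i k) (H k) N := by
  rw [avg2, avg_apply, avg2]
  congr 1
  funext n
  rw [BoundedContinuousFunction.mul_apply, term_apply hT, hU.pow n]

lemma Lifts.mem_pres {U' : (ℕ →ᵇ R) ≃ₐ[ℝ] (ℕ →ᵇ R)} (h : Lifts U' U) (hU : U ∈ pres φ)
    {ψ : ℕ → (ℕ →ᵇ R) →ₗ[ℝ] ℝ} (hψ : ∀ k F, ψ k (U' F) = ψ k F) {φ' : (ℕ →ᵇ R) →ₗ[ℝ] ℝ}
    (hl : ∀ a, Tendsto (fun k => ψ k a) (hyperfilter ℕ : Filter ℕ) (𝓝 (φ' a))) :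
    U' ∈ pres φ' := by
  refine ⟨h.norm_eq hU.1, fun F => tendsto_nhds_unique (hl _) ?_⟩
  simpa only [hψ] using hl F

end

def TaoAt (ℓ : ℕ) : Prop :=
  ∀ (R : Type) [NormedCommRing R] [NormedAlgebra ℝ R] [NormOneClass R] (φ : R →ₗ[ℝ] ℝ)
    (T : Fin ℓ → R ≃ₐ[ℝ] R) (f : Fin ℓ → R), IsState φ → (∀ i, T i ∈ pres φ) →
    (∀ i j, Commute (T i) (T j)) → (∀ i, ‖f i‖ ≤ 1) → Cau φ (avg (term T f))

lemma dual_cau {ℓ : ℕ} (ih : TaoAt ℓ) {R : Type} [NormedCommRing R] [NormedAlgebra ℝ R]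
    [NormOneClass R] {φ : R →ₗ[ℝ] ℝ} {U : R ≃ₐ[ℝ] R} {T : Fin ℓ → R ≃ₐ[ℝ] R} {f : Fin ℓ → R}
    (hφ : IsState φ) (hU : U ∈ pres φ) (hT : ∀ i, T i ∈ pres φ)
    (hc : ∀ i, Commute U (T i)) (hcc : ∀ i j, Commute (T i) (T j)) (hf : ∀ i, ‖f i‖ ≤ 1)
    {B : ℕ → R} (hB : ∀ k, ‖B k‖ ≤ 2) {M : ℕ → ℕ} (hM : ∀ k, k ≤ M k)
    {T' : Fin ℓ → (ℕ →ᵇ R) ≃ₐ[ℝ] (ℕ →ᵇ R)} (hT' : ∀ i, Lifts (T' i) (T i))
    {U' : (ℕ →ᵇ R) ≃ₐ[ℝ] (ℕ →ᵇ R)} (hU' : Lifts U' U)
    {φ' : (ℕ →ᵇ R) →ₗ[ℝ] ℝ}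
    (hl : ∀ a, Tendsto (fun k => evalState φ k a) (hyperfilter ℕ : Filter ℕ) (𝓝 (φ' a)))
    {u : ℕ →ᵇ R} (hu : ∀ k, u k = dual U T f (B k) (M k)) :
    Cau φ' (avg2 U' T' (fun i => const ℕ (f i)) u) := by
  obtain ⟨ψ, hψ, hlψ⟩ := exists_ulim (fun k => avgState φ (M k))
    (fun k => avgState_isState hφ (M k))
  let F : Fin ℓ → ℕ →ᵇ R := fun i => ofNormedAddCommGroupDiscrete (fun m => lower U T f m i) 1
    fun m => norm_lower hU hT hf m i
  have hFm : ∀ m, (fun i => F i m) = lower U T f m := fun m => rfl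
  have hcau : Cau ψ (avg (term T' F)) := by
    refine ih _ ψ T' F hψ (fun i => (hT' i).mem_pres (hT i) (fun k G => ?_) hlψ)
      (fun i j => (hT' i).commute (hT' j) (hcc i j))
      (fun i => (norm_le (by norm_num)).2 fun m => norm_lower hU hT hf m i)
    simp only [avgState_apply, hT' i G, (hT i).2]
  intro ε hε
  obtain ⟨N0, hN0⟩ := hcau (ε / 8) (by positivity)
  refine ⟨N0, fun N hN N' hN' => ?_⟩
  have h1 := hN0 N hN N' hN'
  have hMt : Tendsto (fun k => ((M k : ℕ) : ℝ)⁻¹) (hyperfilter ℕ : Filter ℕ) (𝓝 0) := by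
    have : Tendsto M atTop atTop := tendsto_atTop_mono hM tendsto_id
    exact ((tendsto_inv_atTop_zero.comp tendsto_natCast_atTop_atTop).comp this).mono_left
      (hyperfilter_le_cofinite.trans_eq Nat.cofinite_eq_atTop)
  have h2 := ((hlψ ((avg (term T' F) N - avg (term T' F) N') *
    (avg (term T' F) N - avg (term T' F) N'))).const_mul 8).add
    (((hMt.mul_const (4 * (N : ℝ) + 4 * N')).pow 2).const_mul 2)
  have h3 := le_of_tendsto_of_tendsto' (hl ((avg2 U' T' (fun i => const ℕ (f i)) u N -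
      avg2 U' T' (fun i => const ℕ (f i)) u N') * (avg2 U' T' (fun i => const ℕ (f i)) u N -
      avg2 U' T' (fun i => const ℕ (f i)) u N'))) h2 (fun k => by
    have := avg2_dual_le hφ hU hT hc hf (hB k) (M k) N N'
    rw [evalState_apply, BoundedContinuousFunction.mul_apply, BoundedContinuousFunction.sub_apply,
      avg2_apply hT' hU', avg2_apply hT' hU', hu k]
    refine this.trans (le_of_eq ?_)
    rw [avgState_apply]
    congr 3
    refine Finset.sum_congr rfl fun m _ => ?_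
    rw [BoundedContinuousFunction.mul_apply, BoundedContinuousFunction.sub_apply, avg_apply,
      avg_apply]
    simp only [term_apply hT', hFm])
  simp only [zero_mul, ne_eq, OfNat.ofNat_ne_zero, not_false_eq_true, zero_pow, mul_zero,
    add_zero] at h3
  linarith

lemma decrement {ℓ : ℕ} (ih : TaoAt ℓ) {ε : ℝ} (hε : 0 < ε) (j : ℕ) :
    ∀ (R : Type) [NormedCommRing R] [NormedAlgebra ℝ R] [NormOneClass R] (φ : R →ₗ[ℝ] ℝ)
    (U : R ≃ₐ[ℝ] R) (T : Fin ℓ → R ≃ₐ[ℝ] R) (f : Fin ℓ → R) (h g : R), IsState φ →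
    U ∈ pres φ → (∀ i, T i ∈ pres φ) → (∀ i, Commute U (T i)) →
    (∀ i j, Commute (T i) (T j)) → (∀ i, ‖f i‖ ≤ 1) → ‖h‖ ≤ 1 →
    Cau φ (avg2 U T f (h - g)) → φ (g * g) < j * (ε ^ 2 / 36) →
    ∃ N0, ∀ N ≥ N0, ∀ N' ≥ N0, φ ((avg2 U T f h N - avg2 U T f h N') *
      (avg2 U T f h N - avg2 U T f h N')) ≤ ε := by
  induction j with
  | zero =>
    intro R _ _ _ φ U T f h g hφ _ _ _ _ _ _ _ hg
    have := hφ.nonneg g
    simp only [Nat.cast_zero, zero_mul] at hg
    linarith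
  | succ j ihj =>
    intro R _ _ _ φ U T f h g hφ hU hT hc hcc hf hh hcau hg
    by_contra hcon
    push Not at hcon
    obtain ⟨N1, hN1⟩ := hcau (ε ^ 2 / 36) (by positivity)
    have key : ∀ k : ℕ, ∃ B : R, ∃ M : ℕ, ‖B‖ ≤ 2 ∧ k ≤ M ∧ ε / 3 ≤ φ (dual U T f B M * g) := by
      intro k
      obtain ⟨N, hN, N', hN', hlt⟩ := hcon (max k N1)
      set B := avg2 U T f h N - avg2 U T f h N' with hBdef
      have hB : ‖B‖ ≤ 2 := by
        have := norm_avg2 hU hT hf hh N
        have := norm_avg2 hU hT hf hh N'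
        refine (norm_sub_le _ _).trans ?_
        linarith
      set D := avg2 U T f (h - g) N - avg2 U T f (h - g) N' with hD
      have h1 : φ (D * D) ≤ ε ^ 2 / 36 :=
        hN1 N (le_of_max_le_right hN) N' (le_of_max_le_right hN')
      have h2 : φ (B * B) ≤ 4 := (hφ.sq_le B).trans (by nlinarith [norm_nonneg B])
      have h3 : φ (D * B) ≤ ε / 3 := by
        have := hφ.two_mul_le D B (ε / 12)
        have h4 : (ε / 12) ^ 2 * φ (B * B) ≤ (ε / 12) ^ 2 * 4 :=
          mul_le_mul_of_nonneg_left h2 (by positivity)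
        have h5 : 2 * (ε / 12) * φ (D * B) ≤ 2 * (ε / 12) * (ε / 3) := by nlinarith
        exact le_of_mul_le_mul_left h5 (by positivity)
      have h6 : φ (B * B) = φ (D * B) + φ (B * avg2 U T f g N) + φ (-B * avg2 U T f g N') := by
        rw [← map_add, ← map_add]
        congr 1
        rw [hD, avg2_sub, avg2_sub]
        nth_rewrite 2 [hBdef]
        ring
      rw [state_mul_avg2 hU, state_mul_avg2 hU] at h6
      by_cases hc1 : ε / 3 ≤ φ (dual U T f B N * g)
      · exact ⟨B, N, hB, le_of_max_le_left hN, hc1⟩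
      · refine ⟨-B, N', by rwa [norm_neg], le_of_max_le_left hN', ?_⟩
        linarith
    choose B M hB hM hBM using key
    obtain ⟨φ', hφ', hl⟩ := exists_ulim (evalState φ) (evalState_isState hφ)
    obtain ⟨U', hU'⟩ := exists_lift U hU.1
    choose T' hT' using fun i => exists_lift (T i) (hT i).1
    let u : ℕ →ᵇ R := ofNormedAddCommGroupDiscrete (fun k => dual U T f (B k) (M k)) 2
      fun k => norm_dual hU hT hf (hB k) (M k)
    have hu : ∀ k, u k = dual U T f (B k) (M k) := fun k => rfl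
    have hconst : ∀ (F : ℕ →ᵇ R) (a : R), (∀ k, F k = a) → φ' F = φ a := fun F a hF => by
      refine tendsto_nhds_unique (hl F) ?_
      simp only [evalState_apply, hF]
      exact tendsto_const_nhds
    have hdu := dual_cau ih hφ hU hT hc hcc hf hB hM hT' hU' hl hu
    have hlift : ∀ (a : R) (N N' : ℕ),
        φ' ((avg2 U' T' (fun i => const ℕ (f i)) (const ℕ a) N -
          avg2 U' T' (fun i => const ℕ (f i)) (const ℕ a) N') *
          (avg2 U' T' (fun i => const ℕ (f i)) (const ℕ a) N -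
          avg2 U' T' (fun i => const ℕ (f i)) (const ℕ a) N')) =
        φ ((avg2 U T f a N - avg2 U T f a N') * (avg2 U T f a N - avg2 U T f a N')) := by
      intro a N N'
      refine hconst _ _ fun k => ?_
      rw [BoundedContinuousFunction.mul_apply, BoundedContinuousFunction.sub_apply,
        avg2_apply hT' hU', avg2_apply hT' hU']
      rfl
    have hcau' : Cau φ' (avg2 U' T' (fun i => const ℕ (f i)) (const ℕ (h - g))) := by
      intro δ hδ
      obtain ⟨N0, hN0⟩ := hcau δ hδ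
      exact ⟨N0, fun N hN N' hN' => by rw [hlift]; exact hN0 N hN N' hN'⟩
    have hug : ε / 3 ≤ φ' (const ℕ g * u) := by
      refine ge_of_tendsto' (hl _) fun k => ?_
      rw [evalState_apply, BoundedContinuousFunction.mul_apply, mul_comm]
      exact hBM k
    have huu : φ' (u * u) ≤ 4 := by
      refine (hφ'.sq_le u).trans ?_
      have : ‖u‖ ≤ 2 := (norm_le (by norm_num)).2 fun k => norm_dual hU hT hf (hB k) (M k)
      nlinarith [norm_nonneg u]
    have hgg : φ' (const ℕ g * const ℕ g) = φ (g * g) := hconst _ _ fun k => rfl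
    obtain ⟨N0, hN0⟩ := ihj _ φ' U' T' (fun i => const ℕ (f i)) (const ℕ h)
      (const ℕ g - (ε / 12) • u) hφ'
      (hU'.mem_pres hU (fun k G => by simp only [evalState_apply, hU' G, hU.2]) hl)
      (fun i => (hT' i).mem_pres (hT i)
        (fun k G => by simp only [evalState_apply, hT' i G, (hT i).2]) hl)
      (fun i => hU'.commute (hT' i) (hc i)) (fun i j => (hT' i).commute (hT' j) (hcc i j))
      (fun i => (norm_le (by norm_num)).2 fun _ => hf i)
      ((norm_le (by norm_num)).2 fun _ => hh)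
      (by
        have e : const ℕ h - (const ℕ g - (ε / 12) • u) = const ℕ (h - g) + (ε / 12) • u := by
          ext k; simp; ring
        rw [e]
        have := hcau'.add_smul hφ' hdu (ε / 12)
        convert this using 1
        funext N
        rw [avg2_add_smul])
      (by
        rw [IsState.expand, hgg]
        have h4 : (ε / 12) ^ 2 * φ' (u * u) ≤ (ε / 12) ^ 2 * 4 :=
          mul_le_mul_of_nonneg_left huu (by positivity)
        have h5 : 2 * (ε / 12) * (ε / 3) ≤ 2 * (ε / 12) * φ' (const ℕ g * u) :=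
          mul_le_mul_of_nonneg_left hug (by positivity)
        push_cast at hg
        nlinarith)
    obtain ⟨N, hN, N', hN', hlt⟩ := hcon N0
    have := hN0 N hN N' hN'
    rw [hlift] at this
    linarith

theorem tao (ℓ : ℕ) : TaoAt ℓ := by
  induction ℓ with
  | zero =>
    intro R _ _ _ φ T f hφ _ _ _ ε hε
    refine ⟨1, fun N hN N' hN' => ?_⟩
    have : ∀ N : ℕ, 1 ≤ N → avg (term T f) N = 1 := fun N hN => by
      have hN' : (N : ℝ) ≠ 0 := by positivity
      simp only [avg, term, Finset.univ_eq_empty, Finset.prod_empty, Finset.sum_const,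
        Finset.card_range]
      rw [← Nat.cast_smul_eq_nsmul ℝ, smul_smul, inv_mul_cancel₀ hN', one_smul]
    rw [this N hN, this N' hN']
    simpa using hε.le
  | succ ℓ ih =>
    intro R _ _ _ φ T f hφ hT hc hf ε hε
    obtain ⟨j, hj⟩ := exists_nat_gt (36 / ε ^ 2)
    have e : avg (term T f) = avg2 (T 0) (fun i => T i.succ) (fun i => f i.succ) (f 0) := by
      funext N
      rw [avg2]
      congr 1
      funext n
      simp only [term, Fin.prod_univ_succ]
    rw [e]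
    refine decrement ih hε j R φ (T 0) (fun i => T i.succ) (fun i => f i.succ) (f 0) (f 0) hφ
      (hT 0) (fun i => hT _) (fun i => hc _ _) (fun i j => hc _ _) (fun i => hf _) (hf 0) ?_ ?_
    · intro δ hδ
      refine ⟨0, fun N _ N' _ => ?_⟩
      simp only [sub_self, avg2, map_zero, zero_mul, avg, Finset.sum_const_zero, smul_zero]
      exact hδ.le
    · have h1 : φ (f 0 * f 0) ≤ 1 := (hφ.sq_le _).trans (by nlinarith [norm_nonneg (f 0), hf 0])
      have h2 : 1 < j * (ε ^ 2 / 36) := by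
        rw [div_lt_iff₀ (by positivity)] at hj
        linarith
      linarith

end Pool.Agent.MP_154433_an

end MrgPart1

-- ======== part 2: formerly Pool.Agent.MP_154433_an.Box
section MrgPart2

set_option autoImplicit false

/-! Base-`L` digits turn a weighted multiple correlation into a cylinder (cut-norm) sum. -/

open MeasureTheory Function

namespace Pool.Agent.MP_154433_an

def sg (b : Bool) : ℝ := if b then 1 else -1

lemma abs_sg (b : Bool) : |sg b| = 1 := by cases b <;> simp [sg]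

lemma exists_sign {ι : Type} [Fintype ι] [DecidableEq ι] (Φ : (ι → ℝ) → ℝ)
    (hΦ : ∀ G a, Φ G = (1 + G a) / 2 * Φ (update G a 1) + (1 - G a) / 2 * Φ (update G a (-1)))
    (G : ι → ℝ) (hG : ∀ a, |G a| ≤ 1) : ∃ s : ι → Bool, Φ G ≤ Φ (fun a => sg (s a)) := by
  have key : ∀ A : Finset ι, ∃ G' : ι → ℝ, (∀ a, |G' a| ≤ 1) ∧
      (∀ a ∈ A, G' a = 1 ∨ G' a = -1) ∧ Φ G ≤ Φ G' := by
    intro A
    induction A using Finset.induction_on with
    | empty => exact ⟨G, hG, by simp, le_rfl⟩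
    | insert a A ha ih =>
      obtain ⟨G', h1, h2, h3⟩ := ih
      have hb := abs_le.1 (h1 a)
      have main : ∀ t : ℝ, (t = 1 ∨ t = -1) → Φ G' ≤ Φ (update G' a t) →
          ∃ G' : ι → ℝ, (∀ a, |G' a| ≤ 1) ∧
            (∀ b ∈ insert a A, G' b = 1 ∨ G' b = -1) ∧ Φ G ≤ Φ G' := by
        intro t ht hle
        refine ⟨update G' a t, fun b => ?_, fun b hb => ?_, h3.trans hle⟩
        · by_cases hba : b = a
          · subst hba; rcases ht with rfl | rfl <;> simp
          · rw [update_of_ne hba]; exact h1 b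
        · by_cases hba : b = a
          · subst hba; simpa using ht
          · rw [update_of_ne hba]
            exact h2 b ((Finset.mem_insert.1 hb).resolve_left hba)
      have e := hΦ G' a
      by_cases hc : Φ (update G' a (-1)) ≤ Φ (update G' a 1)
      · exact main 1 (Or.inl rfl) (by nlinarith [hb.1, hb.2])
      · exact main (-1) (Or.inr rfl) (by nlinarith [hb.1, hb.2])
  obtain ⟨G', -, h2, h3⟩ := key Finset.univ
  refine ⟨fun a => decide (G' a = 1), h3.trans (le_of_eq ?_)⟩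
  congr 1
  funext a
  rcases h2 a (Finset.mem_univ a) with h | h
  · simp [sg, h]
  · have : ¬ G' a = 1 := by rw [h]; norm_num
    simp [sg, this, h]

lemma box_sign {ℓ L : ℕ} (y : (Fin (ℓ + 1) → Fin L) → ℝ)
    (G : Fin (ℓ + 1) × (Fin ℓ → Fin L) → ℝ) (hG : ∀ a, |G a| ≤ 1) :
    ∃ s : Fin (ℓ + 1) × (Fin ℓ → Fin L) → Bool,
      ∑ c, y c * ∏ j, G (j, Fin.removeNth j c) ≤
        ∑ c, y c * ∏ j, sg (s (j, Fin.removeNth j c)) := by
  classical
  refine exists_sign (fun G => ∑ c, y c * ∏ j, G (j, Fin.removeNth j c)) ?_ G hG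
  rintro G ⟨j0, d⟩
  rw [Finset.mul_sum, Finset.mul_sum, ← Finset.sum_add_distrib]
  refine Finset.sum_congr rfl fun c _ => ?_
  have e : ∀ t : ℝ, ∏ j, update G (j0, d) t (j, Fin.removeNth j c) =
      update G (j0, d) t (j0, Fin.removeNth j0 c) *
        ∏ j ∈ Finset.univ.erase j0, G (j, Fin.removeNth j c) := fun t => by
    rw [← Finset.mul_prod_erase _ _ (Finset.mem_univ j0)]
    congr 1
    refine Finset.prod_congr rfl fun j hj => update_of_ne ?_ _ _
    intro h
    exact Finset.ne_of_mem_erase hj (congrArg Prod.fst h)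
  rw [e, e, ← Finset.mul_prod_erase _ _ (Finset.mem_univ j0)]
  by_cases hd : Fin.removeNth j0 c = d
  · subst hd
    simp only [update_self]
    ring
  · have : ((j0, Fin.removeNth j0 c) : Fin (ℓ + 1) × (Fin ℓ → Fin L)) ≠ (j0, d) := fun h =>
      hd (congrArg Prod.snd h)
    rw [update_of_ne this, update_of_ne this]
    ring

/-- The coefficient attached to a sign pattern. -/
noncomputable def coef (ℓ L : ℕ) (s : Fin (ℓ + 1) × (Fin ℓ → Fin L) → Bool) (k : ℕ) : ℝ :=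
  if h : k < L ^ (ℓ + 1) then
    ∏ j, sg (s (j, Fin.removeNth j (finFunctionFinEquiv.symm ⟨k, h⟩))) else 0

lemma abs_coef_le (ℓ L : ℕ) (s : Fin (ℓ + 1) × (Fin ℓ → Fin L) → Bool) (k : ℕ) :
    |coef ℓ L s k| ≤ 1 := by
  unfold coef
  split_ifs
  · rw [Finset.abs_prod]
    simp [abs_sg]
  · simp

lemma sum_range_eq_box {q L M : ℕ} (hM : M ≤ L ^ q) (H : ℕ → ℝ) :
    ∑ k ∈ Finset.range M, H k =
      ∑ c : Fin q → Fin L, if (finFunctionFinEquiv c : ℕ) < M then H (finFunctionFinEquiv c)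
        else 0 := by
  rw [Equiv.sum_comp finFunctionFinEquiv (fun k : Fin (L ^ q) => if (k : ℕ) < M then H k else 0),
    Fin.sum_univ_eq_sum_range (fun k => if k < M then H k else 0), ← Finset.sum_filter]
  refine Finset.sum_congr ?_ fun _ _ => rfl
  ext k
  simp only [Finset.mem_range, Finset.mem_filter]
  omega

/-- The lattice vector seen by the `j`-th function. -/
def vec {ℓ L : ℕ} (j : Fin (ℓ + 1)) (c : Fin (ℓ + 1) → Fin L) : Fin ℓ → ℤ := fun i =>
  if j = i.succ then ∑ j' ∈ Finset.univ.erase j, ((c j' : ℕ) : ℤ) * (L : ℤ) ^ (j' : ℕ)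
  else -(((c i.succ : ℕ) : ℤ) * (L : ℤ) ^ (i.succ : ℕ))

lemma vec_update {ℓ L : ℕ} (j : Fin (ℓ + 1)) (c : Fin (ℓ + 1) → Fin L) (z : Fin L) :
    vec j (update c j z) = vec j c := by
  funext i
  unfold vec
  split_ifs with h
  · exact Finset.sum_congr rfl fun j' hj' => by rw [update_of_ne (Finset.ne_of_mem_erase hj')]
  · rw [update_of_ne (Ne.symm h)]

lemma vec_succ {ℓ L : ℕ} (i : Fin ℓ) (c : Fin (ℓ + 1) → Fin L) :
    vec i.succ c = Pi.single i ((finFunctionFinEquiv c : ℕ) : ℤ) + vec 0 c := by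
  funext i'
  simp only [vec, Pi.add_apply, (Fin.succ_ne_zero i').symm, if_false]
  by_cases h : i' = i
  · subst h
    rw [if_pos rfl, Pi.single_eq_same, finFunctionFinEquiv_apply]
    push_cast
    rw [← Finset.add_sum_erase _ _ (Finset.mem_univ i'.succ)]
    ring
  · rw [if_neg (fun h' => h (Fin.succ_injective _ h').symm), Pi.single_eq_of_ne h, zero_add]

variable {X : Type} [MeasurableSpace X] {μ : Measure X}

lemma exists_action {ℓ : ℕ} (T : Fin ℓ → X ≃ᵐ X) (hT : ∀ i, MeasurePreserving (T i) μ μ)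
    (hc : ∀ i j, Function.Commute (T i) (T j)) :
    ∃ A : (Fin ℓ → ℤ) → X → X, (∀ v, MeasurePreserving (A v) μ μ) ∧
      (∀ v w x, A (v + w) x = A v (A w x)) ∧
      ∀ i (n : ℕ) x, A (Pi.single i (n : ℤ)) x = (T i)^[n] x := by
  classical
  let P : Subgroup (Equiv.Perm X) :=
    { carrier := {e | MeasurePreserving e μ μ ∧ MeasurePreserving e.symm μ μ}
      one_mem' := ⟨MeasurePreserving.id μ, MeasurePreserving.id μ⟩
      mul_mem' := fun ha hb => ⟨ha.1.comp hb.1, hb.2.comp ha.2⟩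
      inv_mem' := fun ha => ⟨ha.2, ha.1⟩ }
  let t : Fin ℓ → P := fun i => ⟨(T i).toEquiv, hT i, (hT i).symm (T i)⟩
  have ht : ∀ i j, Commute (t i) (t j) := fun i j =>
    Subtype.ext (Equiv.ext fun x => hc i j x)
  let ϕ : ∀ _ : Fin ℓ, Multiplicative ℤ →* P := fun i => zpowersHom P (t i)
  have hϕ : Pairwise fun i j => ∀ x y, Commute (ϕ i x) (ϕ j y) := fun i j _ x y =>
    (ht i j).zpow_zpow _ _
  let Φ := MonoidHom.noncommPiCoprod ϕ hϕ
  refine ⟨fun v => (Φ (fun i => Multiplicative.ofAdd (v i)) : Equiv.Perm X),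
    fun v => (Φ _).2.1, fun v w x => ?_, fun i n x => ?_⟩
  · have : (fun i => Multiplicative.ofAdd ((v + w) i)) =
        (fun i => Multiplicative.ofAdd (v i)) * fun i => Multiplicative.ofAdd (w i) := rfl
    beta_reduce
    rw [this, map_mul]
    rfl
  · have : (fun i' => Multiplicative.ofAdd ((Pi.single i (n : ℤ) : Fin ℓ → ℤ) i')) =
        Pi.mulSingle i (Multiplicative.ofAdd (n : ℤ)) := by
      funext i'
      by_cases h : i' = i
      · subst h; simp
      · simp [Pi.single_eq_of_ne h, Pi.mulSingle_eq_of_ne h]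
    beta_reduce
    rw [this, MonoidHom.noncommPiCoprod_mulSingle]
    simp only [ϕ, zpowersHom_apply, toAdd_ofAdd, zpow_natCast, Subgroup.coe_pow,
      Equiv.Perm.coe_pow]
    rfl

theorem box_bound [IsProbabilityMeasure μ] {ℓ L M : ℕ} (hM : M ≤ L ^ (ℓ + 1)) (hL : 0 < L)
    (y : ℕ → ℝ) {t : ℝ} (ht : ∀ s, ∑ k ∈ Finset.range M, y k * coef ℓ L s k ≤ t)
    (T : Fin ℓ → X ≃ᵐ X) (hT : ∀ i, MeasurePreserving (T i) μ μ)
    (hc : ∀ i j, Function.Commute (T i) (T j)) (f0 : X → ℝ) (f : Fin ℓ → X → ℝ)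
    (hm0 : Measurable f0) (hm : ∀ i, Measurable (f i)) (hb0 : ∀ x, |f0 x| ≤ 1)
    (hb : ∀ i x, |f i x| ≤ 1) :
    ∑ k ∈ Finset.range M, y k * ∫ x, f0 x * ∏ i, f i ((T i)^[k] x) ∂μ ≤ t := by
  classical
  obtain ⟨A, hA1, hA2, hA3⟩ := exists_action T hT hc
  let ff : Fin (ℓ + 1) → X → ℝ := Fin.cons f0 f
  have hffm : ∀ j, Measurable (ff j) := fun j => Fin.cases hm0 hm j
  have hffb : ∀ j x, |ff j x| ≤ 1 := fun j => Fin.cases hb0 hb j
  have hmk : ∀ k : ℕ, Measurable fun x => f0 x * ∏ i, f i ((T i)^[k] x) := fun k =>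
    hm0.mul (Finset.measurable_prod _ fun i _ => (hm i).comp ((T i).measurable.iterate k))
  have e1 : ∀ c : Fin (ℓ + 1) → Fin L,
      ∫ x, f0 x * ∏ i, f i ((T i)^[finFunctionFinEquiv c] x) ∂μ =
        ∫ x, ∏ j, ff j (A (vec j c) x) ∂μ := by
    intro c
    rw [← (hA1 (vec 0 c)).map_eq, integral_map (hA1 _).measurable.aemeasurable
      (hmk _).aestronglyMeasurable, (hA1 (vec 0 c)).map_eq]
    refine integral_congr_ae (Filter.Eventually.of_forall fun x => ?_)
    simp only [Fin.prod_univ_succ, ff, Fin.cons_zero, Fin.cons_succ, vec_succ, hA2, hA3]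
  let y' : (Fin (ℓ + 1) → Fin L) → ℝ := fun c =>
    if (finFunctionFinEquiv c : ℕ) < M then y (finFunctionFinEquiv c) else 0
  have hint : ∀ c : Fin (ℓ + 1) → Fin L,
      Integrable (fun x => y' c * ∏ j, ff j (A (vec j c) x)) μ := fun c => by
    refine Integrable.const_mul ?_ _
    refine Integrable.of_bound (Finset.measurable_prod _ fun j _ =>
      (hffm j).comp (hA1 _).measurable).aestronglyMeasurable 1
      (Filter.Eventually.of_forall fun x => ?_)
    rw [Real.norm_eq_abs, Finset.abs_prod]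
    exact Finset.prod_le_one (fun _ _ => abs_nonneg _) fun j _ => hffb j _
  have e2 : ∑ k ∈ Finset.range M, y k * ∫ x, f0 x * ∏ i, f i ((T i)^[k] x) ∂μ =
      ∫ x, ∑ c, y' c * ∏ j, ff j (A (vec j c) x) ∂μ := by
    rw [sum_range_eq_box hM, integral_finsetSum _ fun c _ => hint c]
    refine Finset.sum_congr rfl fun c _ => ?_
    rw [integral_const_mul, ← e1]
    simp only [y']
    split_ifs <;> simp
  rw [e2]
  have e3 : ∀ x, ∑ c, y' c * ∏ j, ff j (A (vec j c) x) ≤ t := by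
    intro x
    obtain ⟨s, hs⟩ := box_sign y'
      (fun a => ff a.1 (A (vec a.1 (Fin.insertNth a.1 ⟨0, hL⟩ a.2)) x)) fun a => hffb _ _
    simp only [Fin.insertNth_removeNth, vec_update] at hs
    refine hs.trans (le_of_eq_of_le ?_ (ht s))
    rw [sum_range_eq_box hM]
    refine Finset.sum_congr rfl fun c _ => ?_
    simp only [y']
    split_ifs with h
    · rw [coef, dif_pos (finFunctionFinEquiv c).2]
      simp only [Fin.eta, Equiv.symm_apply_apply]
    · simp
  calc ∫ x, ∑ c, y' c * ∏ j, ff j (A (vec j c) x) ∂μ ≤ ∫ _, t ∂μ :=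
        integral_mono (integrable_finsetSum _ fun c _ => hint c) (integrable_const t) e3
    _ = t := by simp

end Pool.Agent.MP_154433_an

end MrgPart2

-- ======== part 3: formerly Pool.Agent.MP_154433_an.Prob
section MrgPart3

set_option autoImplicit false

/-! Bernstein tail, union bound over sign patterns, Borel-Cantelli. -/

open MeasureTheory ProbabilityTheory Filter Topology

namespace Pool.Agent.MP_154433_an

variable {Ω : Type} [MeasurableSpace Ω] {P : Measure Ω} [IsProbabilityMeasure P]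

lemma tail {σ : ℕ → ℝ} (hσ : ∀ n, 0 ≤ σ n ∧ σ n ≤ 1) {E : ℕ → Set Ω}
    (hE : ∀ n, MeasurableSet (E n)) (hind : iIndepSet E P)
    (hP : ∀ n, P (E n) = ENNReal.ofReal (σ n)) {c : ℕ → ℝ} (hc : ∀ k, |c k| ≤ 1) (M : ℕ)
    {ε : ℝ} (h0 : 0 ≤ ε) (h1 : ε ≤ 1) :
    P.real {ω | ε * ∑ k ∈ Finset.range M, σ k ≤
      ∑ k ∈ Finset.range M, ((E k).indicator (fun _ => (1 : ℝ)) ω - σ k) * c k} ≤
      Real.exp (-(ε ^ 2 * (∑ k ∈ Finset.range M, σ k) / 4)) := by
  let Y : ℕ → Ω → ℝ := fun k ω => ((E k).indicator (fun _ => (1 : ℝ)) ω - σ k) * c k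
  have hY : iIndepFun Y P :=
    (hind.iIndepFun_indicator (β := ℝ)).comp (fun k x => (x - σ k) * c k)
      fun k => by fun_prop
  have hYm : ∀ k, Measurable (Y k) := fun k =>
    ((measurable_const.indicator (hE k)).sub_const _).mul_const _
  set t := ε / 2 with ht
  have ht0 : 0 ≤ t := by positivity
  have hexp : ∀ k ω, Real.exp (t * Y k ω) = Real.exp (-(t * σ k * c k)) +
      (E k).indicator (fun _ => Real.exp (-(t * σ k * c k)) * (Real.exp (t * c k) - 1)) ω := by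
    intro k ω
    by_cases h : ω ∈ E k
    · simp only [Y, Set.indicator_of_mem h]
      rw [mul_sub _ (Real.exp (t * c k)), ← Real.exp_add]
      ring_nf
    · simp only [Y, Set.indicator_of_notMem h]
      ring_nf
  have hint : ∀ k, Integrable (fun ω => Real.exp (t * Y k ω)) P := fun k => by
    simp only [hexp]
    exact (integrable_const _).add ((integrable_const _).indicator (hE k))
  have hmgf : ∀ k, mgf (Y k) P t ≤ Real.exp (t ^ 2 * σ k) := by
    intro k
    have hr : P.real (E k) = σ k := by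
      rw [Measure.real, hP, ENNReal.toReal_ofReal (hσ k).1]
    have e : mgf (Y k) P t = Real.exp (-(t * σ k * c k)) *
        (1 + σ k * (Real.exp (t * c k) - 1)) := by
      simp only [mgf, hexp]
      rw [integral_add (integrable_const _) ((integrable_const _).indicator (hE k)),
        integral_indicator_const _ (hE k), hr]
      simp
      ring
    have habs : |t * c k| ≤ 1 := by
      rw [abs_mul, abs_of_nonneg ht0]
      have := hc k
      have := abs_nonneg (c k)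
      nlinarith
    have h2 := (abs_le.1 (Real.abs_exp_sub_one_sub_id_le habs)).2
    have h3 : (t * c k) ^ 2 ≤ t ^ 2 := by
      rw [mul_pow]
      have : c k ^ 2 ≤ 1 := by rw [← sq_abs]; nlinarith [hc k, abs_nonneg (c k)]
      nlinarith [sq_nonneg t]
    rw [e]
    calc Real.exp (-(t * σ k * c k)) * (1 + σ k * (Real.exp (t * c k) - 1))
        ≤ Real.exp (-(t * σ k * c k)) * Real.exp (σ k * (Real.exp (t * c k) - 1)) := by
          refine mul_le_mul_of_nonneg_left ?_ (Real.exp_pos _).le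
          rw [add_comm]; exact Real.add_one_le_exp _
      _ ≤ _ := by
          rw [← Real.exp_add]
          refine Real.exp_le_exp.2 ?_
          have := (hσ k).1
          nlinarith
  have hs := measure_ge_le_exp_mul_mgf (μ := P) (X := ∑ k ∈ Finset.range M, Y k)
    (ε * ∑ k ∈ Finset.range M, σ k) ht0
    (hY.integrable_exp_mul_sum hYm fun k _ => hint k)
  simp only [Finset.sum_apply] at hs
  refine hs.trans ?_
  rw [hY.mgf_sum hYm]
  have h4 : ∏ k ∈ Finset.range M, mgf (Y k) P t ≤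
      Real.exp (t ^ 2 * ∑ k ∈ Finset.range M, σ k) := by
    rw [Finset.mul_sum, Real.exp_sum]
    exact Finset.prod_le_prod (fun k _ => mgf_nonneg) fun k _ => hmgf k
  refine (mul_le_mul_of_nonneg_left h4 (Real.exp_pos _).le).trans (le_of_eq ?_)
  rw [← Real.exp_add, ht]
  congr 1
  ring

/-- Side length of the box used at scale `M`. -/
noncomputable def side (ℓ M : ℕ) : ℕ := ⌈(M : ℝ) ^ (1 / ((ℓ : ℝ) + 1))⌉₊ + 1

lemma side_pos (ℓ M : ℕ) : 0 < side ℓ M := Nat.succ_pos _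

lemma root_pow (ℓ M : ℕ) : ((M : ℝ) ^ (1 / ((ℓ : ℝ) + 1))) ^ (ℓ + 1) = M := by
  rw [one_div, ← Nat.cast_add_one]
  exact Real.rpow_inv_natCast_pow (Nat.cast_nonneg M) (Nat.succ_ne_zero ℓ)

lemma le_side_pow (ℓ M : ℕ) : M ≤ side ℓ M ^ (ℓ + 1) := by
  have h1 : (M : ℝ) ^ (1 / ((ℓ : ℝ) + 1)) ≤ side ℓ M := by
    refine (Nat.le_ceil _).trans ?_
    simp [side]
  have h2 := pow_le_pow_left₀ (by positivity) h1 (ℓ + 1)
  rw [root_pow] at h2
  exact_mod_cast h2

lemma side_le (ℓ M : ℕ) (hM : 1 ≤ M) : (side ℓ M : ℝ) ≤ 3 * (M : ℝ) ^ (1 / ((ℓ : ℝ) + 1)) := by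
  have h1 : 1 ≤ (M : ℝ) ^ (1 / ((ℓ : ℝ) + 1)) :=
    Real.one_le_rpow (by exact_mod_cast hM) (by positivity)
  have h2 := Nat.ceil_lt_add_one (a := (M : ℝ) ^ (1 / ((ℓ : ℝ) + 1))) (by positivity)
  simp only [side]
  push_cast
  linarith

lemma sum_ge {σ : ℕ → ℝ} (ha : Antitone σ) (M : ℕ) :
    M * σ M ≤ ∑ k ∈ Finset.range M, σ k := by
  calc M * σ M = ∑ k ∈ Finset.range M, σ M := by simp
    _ ≤ _ := Finset.sum_le_sum fun k hk => ha (Finset.mem_range.1 hk).le

theorem ae_small {σ : ℕ → ℝ} (hσ : ∀ n, 0 ≤ σ n ∧ σ n ≤ 1) (ha : Antitone σ) {E : ℕ → Set Ω}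
    (hE : ∀ n, MeasurableSet (E n)) (hind : iIndepSet E P)
    (hP : ∀ n, P (E n) = ENNReal.ofReal (σ n)) {ℓ : ℕ} (hℓ : 1 ≤ ℓ)
    (hg : Tendsto (fun n : ℕ => (n : ℝ) ^ (1 / ((ℓ : ℝ) + 1)) * σ n) atTop atTop)
    {ε : ℝ} (h0 : 0 < ε) (h1 : ε ≤ 1) :
    ∀ᵐ ω ∂P, ∀ᶠ M in atTop, ∀ s, ∑ k ∈ Finset.range M,
      ((E k).indicator (fun _ => (1 : ℝ)) ω - σ k) * coef ℓ (side ℓ M) s k ≤
        ε * ∑ k ∈ Finset.range M, σ k := by
  let B : ℕ → Set Ω := fun M => ⋃ s, {ω | ε * ∑ k ∈ Finset.range M, σ k ≤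
      ∑ k ∈ Finset.range M, ((E k).indicator (fun _ => (1 : ℝ)) ω - σ k) * coef ℓ (side ℓ M) s k}
  have hB : ∀ᶠ M in atTop, P.real (B M) ≤ ((2 * (ℓ + 1)).factorial : ℝ) * (1 / (M : ℝ) ^ 2) := by
    filter_upwards [hg.eventually_ge_atTop (4 * ((ℓ + 1) * 3 ^ ℓ + 1) / ε ^ 2),
      eventually_ge_atTop 1] with M hM hM1
    set x : ℝ := (M : ℝ) ^ (1 / ((ℓ : ℝ) + 1)) with hx
    have hx1 : 1 ≤ x := Real.one_le_rpow (by exact_mod_cast hM1) (by positivity)
    have hxM : x ^ (ℓ + 1) = M := root_pow ℓ M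
    set W := ∑ k ∈ Finset.range M, σ k with hW
    have hW1 : ((ℓ + 1) * 3 ^ ℓ + 1) * x ^ ℓ ≤ ε ^ 2 * W / 4 := by
      have h2 : M * σ M ≤ W := sum_ge ha M
      rw [← hxM, pow_succ] at h2
      rw [div_le_iff₀ (by positivity)] at hM
      have h3 : x ^ ℓ * (4 * ((ℓ + 1) * 3 ^ ℓ + 1)) ≤ x ^ ℓ * (x * σ M * ε ^ 2) :=
        mul_le_mul_of_nonneg_left hM (by positivity)
      have h4 : x ^ ℓ * x * σ M * ε ^ 2 ≤ W * ε ^ 2 :=
        mul_le_mul_of_nonneg_right h2 (by positivity)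
      nlinarith
    have hcard : (Fintype.card (Fin (ℓ + 1) × (Fin ℓ → Fin (side ℓ M)) → Bool) : ℝ) ≤
        Real.exp ((ℓ + 1) * 3 ^ ℓ * x ^ ℓ) := by
      simp only [Fintype.card_fun, Fintype.card_prod, Fintype.card_fin, Fintype.card_bool]
      push_cast
      have h2 : (2 : ℝ) ≤ Real.exp 1 := by have := Real.add_one_le_exp 1; linarith
      refine (pow_le_pow_left₀ (by norm_num) h2 _).trans ?_
      rw [← Real.exp_nat_mul]
      refine Real.exp_le_exp.2 ?_
      push_cast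
      have h3 := pow_le_pow_left₀ (by positivity) (side_le ℓ M hM1) ℓ
      rw [mul_pow] at h3
      rw [mul_one, mul_assoc]
      exact mul_le_mul_of_nonneg_left h3 (by positivity)
    refine (measureReal_iUnion_fintype_le _).trans ?_
    refine (Finset.sum_le_card_nsmul _ _ _ fun s _ =>
      tail hσ hE hind hP (abs_coef_le ℓ (side ℓ M) s) M h0.le h1).trans ?_
    rw [Finset.card_univ, nsmul_eq_mul]
    refine (mul_le_mul_of_nonneg_right hcard (Real.exp_pos _).le).trans ?_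
    rw [← Real.exp_add]
    have h5 : x ≤ x ^ ℓ := le_self_pow₀ hx1 (by omega)
    have h6 : Real.exp ((ℓ + 1) * 3 ^ ℓ * x ^ ℓ + -(ε ^ 2 * W / 4)) ≤ Real.exp (-x) :=
      Real.exp_le_exp.2 (by linarith)
    refine h6.trans ?_
    have h7 := Real.pow_div_factorial_le_exp x (by positivity) (2 * (ℓ + 1))
    rw [mul_comm 2, pow_mul, hxM, div_le_iff₀ (by positivity)] at h7
    have hM0 : (0 : ℝ) < M := by exact_mod_cast hM1
    rw [Real.exp_neg, mul_one_div, le_div_iff₀ (by positivity), mul_comm 2,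
      inv_mul_le_iff₀ (Real.exp_pos _)]
    exact h7
  have hsum : Summable fun M => P.real (B M) := by
    refine Summable.of_norm_bounded_eventually_nat
      ((Real.summable_one_div_nat_pow.2 one_lt_two).mul_left ((2 * (ℓ + 1)).factorial : ℝ)) ?_
    filter_upwards [hB] with M hM
    rwa [Real.norm_eq_abs, abs_of_nonneg measureReal_nonneg]
  have hne : ∑' M, P (B M) ≠ ⊤ := by
    have : ∀ M, P (B M) = ENNReal.ofReal (P.real (B M)) := fun M =>
      (ofReal_measureReal (measure_ne_top _ _)).symm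
    simp only [this]
    rw [← ENNReal.ofReal_tsum_of_nonneg (fun _ => measureReal_nonneg) hsum]
    exact ENNReal.ofReal_ne_top
  filter_upwards [ae_eventually_notMem hne] with ω hω
  filter_upwards [hω] with M hM s
  simp only [B, Set.mem_iUnion, not_exists, Set.mem_ofPred_eq, not_le] at hM
  exact (hM s).le

end Pool.Agent.MP_154433_an

end MrgPart3

-- ======== part 4: formerly Pool.Agent.MP_154433_an.Seq
section MrgPart4

set_option autoImplicit false

/-! From weighted sums to averages along the hit times. -/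

open Filter Topology Asymptotics

namespace Pool.Agent.MP_154433_an

variable {V : Type} [NormedAddCommGroup V] [NormedSpace ℝ V]

lemma abel {σ : ℕ → ℝ} (h0 : ∀ n, 0 ≤ σ n) (ha : Antitone σ) (v : ℕ → V) {ε C : ℝ}
    (hv : ∀ n : ℕ, ‖∑ k ∈ Finset.range n, v k‖ ≤ ε * n + C) (M : ℕ) :
    ‖∑ k ∈ Finset.range M, σ k • v k‖ ≤ ε * ∑ k ∈ Finset.range M, σ k + C * σ 0 := by
  have key : ∀ M : ℕ, ‖∑ k ∈ Finset.range M, σ k • v k - σ M • ∑ k ∈ Finset.range M, v k‖ ≤
      ε * (∑ k ∈ Finset.range M, σ k - M * σ M) + C * (σ 0 - σ M) := by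
    intro M
    induction M with
    | zero => simp
    | succ M ih =>
      have e : ∑ k ∈ Finset.range (M + 1), σ k • v k -
          σ (M + 1) • ∑ k ∈ Finset.range (M + 1), v k =
          (∑ k ∈ Finset.range M, σ k • v k - σ M • ∑ k ∈ Finset.range M, v k) +
            (σ M - σ (M + 1)) • ∑ k ∈ Finset.range (M + 1), v k := by
        simp only [Finset.sum_range_succ, sub_smul, smul_add]
        abel
      have h1 : 0 ≤ σ M - σ (M + 1) := sub_nonneg.2 (ha (Nat.le_succ M))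
      rw [e]
      refine (norm_add_le _ _).trans ?_
      rw [norm_smul, Real.norm_eq_abs, abs_of_nonneg h1, Finset.sum_range_succ σ]
      have h2 := mul_le_mul_of_nonneg_left (hv (M + 1)) h1
      push_cast at h2 ⊢
      nlinarith
  have h1 := key M
  have h2 := mul_le_mul_of_nonneg_left (hv M) (h0 M)
  have h3 := norm_add_le (∑ k ∈ Finset.range M, σ k • v k - σ M • ∑ k ∈ Finset.range M, v k)
    (σ M • ∑ k ∈ Finset.range M, v k)
  rw [sub_add_cancel, norm_smul, Real.norm_eq_abs, abs_of_nonneg (h0 M)] at h3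
  nlinarith

lemma weighted_isLittleO {σ : ℕ → ℝ} (h0 : ∀ n, 0 ≤ σ n) (ha : Antitone σ)
    (hW : Tendsto (fun M => ∑ k ∈ Finset.range M, σ k) atTop atTop) (v : ℕ → V)
    (hv : (fun n => ∑ k ∈ Finset.range n, v k) =o[atTop] fun n : ℕ => (n : ℝ)) :
    (fun M => ∑ k ∈ Finset.range M, σ k • v k) =o[atTop] fun M => ∑ k ∈ Finset.range M, σ k := by
  rw [isLittleO_iff] at hv ⊢
  intro ε hε
  obtain ⟨N, hN⟩ := eventually_atTop.1 (hv (half_pos hε))
  let C := ∑ n ∈ Finset.range N, ‖∑ k ∈ Finset.range n, v k‖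
  have hC : ∀ n : ℕ, ‖∑ k ∈ Finset.range n, v k‖ ≤ ε / 2 * n + C := by
    intro n
    have hC0 : 0 ≤ C := Finset.sum_nonneg fun _ _ => norm_nonneg _
    by_cases hn : N ≤ n
    · have := hN n hn
      rw [Real.norm_natCast] at this
      linarith
    · have : ‖∑ k ∈ Finset.range n, v k‖ ≤ C :=
        Finset.single_le_sum (f := fun n => ‖∑ k ∈ Finset.range n, v k‖)
          (fun _ _ => norm_nonneg _) (Finset.mem_range.2 (not_le.1 hn))
      have : 0 ≤ ε / 2 * n := by positivity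
      linarith
  filter_upwards [hW.eventually_ge_atTop (C * σ 0 / (ε / 2))] with M hM
  rw [div_le_iff₀ (half_pos hε)] at hM
  have := abel h0 ha v hC M
  rw [Real.norm_eq_abs, abs_of_nonneg (Finset.sum_nonneg fun k _ => h0 k)]
  linarith

lemma sum_ind (p : ℕ → Prop) [DecidablePred p] (v : ℕ → V) (M : ℕ) :
    ∑ k ∈ Finset.range M, (if p k then (1 : ℝ) else 0) • v k =
      ∑ n ∈ Finset.range (Nat.count p M), v (Nat.nth p n) := by
  induction M with
  | zero => simp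
  | succ M ih =>
    rw [Finset.sum_range_succ, ih, Nat.count_succ]
    split_ifs with h
    · rw [Finset.sum_range_succ, Nat.nth_count h, one_smul]
    · simp

lemma isLittleO_of_tendsto {F : ℕ → V} {g : V}
    (h : Tendsto (fun N : ℕ => (N : ℝ)⁻¹ • ∑ n ∈ Finset.range N, F n) atTop (𝓝 g)) :
    (fun N => ∑ n ∈ Finset.range N, (F n - g)) =o[atTop] fun n : ℕ => (n : ℝ) := by
  have h1 : (fun N : ℕ => (N : ℝ)⁻¹ • ∑ n ∈ Finset.range N, F n - g) =o[atTop]
      fun _ => (1 : ℝ) := (isLittleO_one_iff ℝ).2 (tendsto_sub_nhds_zero_iff.2 h)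
  have h2 := (isBigO_refl (fun n : ℕ => (n : ℝ)) atTop).smul_isLittleO h1
  simp only [smul_eq_mul, mul_one] at h2
  refine h2.congr' ?_ (EventuallyEq.refl _ _)
  filter_upwards [eventually_gt_atTop 0] with N hN
  have : (N : ℝ) ≠ 0 := by positivity
  rw [smul_sub, smul_smul, mul_inv_cancel₀ this, one_smul, Finset.sum_sub_distrib]
  simp [Nat.cast_smul_eq_nsmul]

lemma tendsto_of_isLittleO {F : ℕ → V} {g : V}
    (h : (fun N => ∑ n ∈ Finset.range N, (F n - g)) =o[atTop] fun n : ℕ => (n : ℝ)) :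
    Tendsto (fun N : ℕ => (N : ℝ)⁻¹ • ∑ n ∈ Finset.range N, F n) atTop (𝓝 g) := by
  have h2 := (isBigO_refl (fun n : ℕ => (n : ℝ)⁻¹) atTop).smul_isLittleO h
  rw [← tendsto_sub_nhds_zero_iff, ← isLittleO_one_iff ℝ]
  refine h2.congr' ?_ ?_
  · filter_upwards [eventually_gt_atTop 0] with N hN
    have : (N : ℝ) ≠ 0 := by positivity
    rw [Finset.sum_sub_distrib, smul_sub]
    simp [← Nat.cast_smul_eq_nsmul ℝ, smul_smul, inv_mul_cancel₀ this]
  · filter_upwards [eventually_gt_atTop 0] with N hN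
    have : (N : ℝ) ≠ 0 := by positivity
    simp [inv_mul_cancel₀ this]

theorem tendsto_nth {σ : ℕ → ℝ} (h0 : ∀ n, 0 ≤ σ n) (ha : Antitone σ)
    (hW : Tendsto (fun M => ∑ k ∈ Finset.range M, σ k) atTop atTop)
    (p : ℕ → Prop) [DecidablePred p] {F : ℕ → V} {g : V}
    (H1 : (fun M => ∑ k ∈ Finset.range M, ((if p k then (1 : ℝ) else 0) - σ k)) =o[atTop]
      fun M => ∑ k ∈ Finset.range M, σ k)
    (H2 : (fun M => ∑ k ∈ Finset.range M, ((if p k then (1 : ℝ) else 0) - σ k) • F k) =o[atTop]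
      fun M => ∑ k ∈ Finset.range M, σ k)
    (H3 : Tendsto (fun N : ℕ => (N : ℝ)⁻¹ • ∑ n ∈ Finset.range N, F n) atTop (𝓝 g)) :
    Tendsto (fun N : ℕ => (N : ℝ)⁻¹ • ∑ n ∈ Finset.range N, F (Nat.nth p n)) atTop (𝓝 g) := by
  have hcount : ∀ M, ∑ k ∈ Finset.range M, (if p k then (1 : ℝ) else 0) = Nat.count p M := by
    intro M
    have := sum_ind (V := ℝ) p (fun _ => 1) M
    simpa using this
  have heq : (fun M => (Nat.count p M : ℝ)) ~[atTop] fun M => ∑ k ∈ Finset.range M, σ k := by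
    refine H1.congr_left fun M => ?_
    rw [Finset.sum_sub_distrib, hcount]; rfl
  have hct : Tendsto (fun M => (Nat.count p M : ℝ)) atTop atTop := heq.symm.tendsto_atTop hW
  have hinf : (Set.ofPred p).Infinite := by
    intro hfin
    obtain ⟨M, hM⟩ := (hct.eventually_gt_atTop (hfin.toFinset.card : ℝ)).exists
    have := Nat.count_le_card hfin M
    exact absurd hM (not_lt.2 (by exact_mod_cast this))
  have hS : (fun M => ∑ k ∈ Finset.range M, (if p k then (1 : ℝ) else 0) • (F k - g)) =o[atTop]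
      fun M => ∑ k ∈ Finset.range M, σ k := by
    have h3 := weighted_isLittleO h0 ha hW _ (isLittleO_of_tendsto H3)
    have h4 : (fun M => (∑ k ∈ Finset.range M, ((if p k then (1 : ℝ) else 0) - σ k)) • g)
        =o[atTop] fun M => ∑ k ∈ Finset.range M, σ k := by
      have := H1.smul_isBigO (isBigO_const_one ℝ g atTop)
      simpa only [smul_eq_mul, mul_one] using this
    refine ((H2.sub h4).add h3).congr_left fun M => ?_
    rw [Finset.sum_smul, ← Finset.sum_sub_distrib, ← Finset.sum_add_distrib]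
    refine Finset.sum_congr rfl fun k _ => ?_
    simp only [sub_smul, smul_sub]
    abel
  have hS2 := (hS.trans_isBigO heq.symm.isBigO).comp_tendsto
    (Nat.nth_strictMono hinf).tendsto_atTop
  refine tendsto_of_isLittleO (hS2.congr (fun N => ?_) fun N => ?_)
  · simp only [Function.comp]
    rw [sum_ind p (fun k => F k - g), Nat.count_nth_of_infinite hinf]
  · simp only [Function.comp]
    rw [Nat.count_nth_of_infinite hinf]

lemma tendsto_Icc {F : ℕ → V} {g : V} (hF : ∀ n, ‖F n‖ ≤ 1)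
    (H3 : Tendsto (fun N : ℕ => (N : ℝ)⁻¹ • ∑ n ∈ Finset.range N, F n) atTop (𝓝 g)) :
    Tendsto (fun N : ℕ => (N : ℝ)⁻¹ • ∑ n ∈ Finset.Icc 1 N, F n) atTop (𝓝 g) := by
  have e : ∀ N, ∑ n ∈ Finset.Icc 1 N, F n = ∑ n ∈ Finset.range N, F n + (F N - F 0) := by
    intro N
    induction N with
    | zero => simp
    | succ N ih =>
      rw [Finset.sum_Icc_succ_top (by omega), ih, Finset.sum_range_succ]
      abel
  have h1 : Tendsto (fun N : ℕ => (N : ℝ)⁻¹ • (F N - F 0)) atTop (𝓝 0) := by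
    refine squeeze_zero_norm (a := fun N : ℕ => (N : ℝ)⁻¹ * 2) (fun N => ?_) ?_
    · rw [norm_smul, Real.norm_eq_abs, abs_of_nonneg (by positivity)]
      refine mul_le_mul_of_nonneg_left ((norm_sub_le _ _).trans ?_) (by positivity)
      linarith [hF N, hF 0]
    · simpa using (tendsto_inv_atTop_zero.comp tendsto_natCast_atTop_atTop).mul_const (2 : ℝ)
  simpa only [e, smul_add, add_zero] using H3.add h1

end Pool.Agent.MP_154433_an

end MrgPart4

-- ======== part 5: formerly Pool.Agent.MP_154433_an.Main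
section MrgPart5

set_option autoImplicit false

open MeasureTheory ProbabilityTheory Filter Topology Asymptotics BoundedContinuousFunction

namespace Pool.Agent.MP_154433_an

section Cauchy

variable {X : Type} [MeasurableSpace X] [TopologicalSpace X] [DiscreteTopology X]

/-- Bounded measurable functions. -/
def BMs (X : Type) [MeasurableSpace X] [TopologicalSpace X] : Subalgebra ℝ (X →ᵇ ℝ) where
  carrier := {F | Measurable F}
  mul_mem' ha hb := Measurable.mul ha hb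
  add_mem' ha hb := Measurable.add ha hb
  algebraMap_mem' c := by
    change Measurable fun _ : X => algebraMap ℝ ℝ c
    exact measurable_const

def BM (X : Type) [MeasurableSpace X] [TopologicalSpace X] : Type := BMs X

noncomputable instance : NormedCommRing (BM X) := inferInstanceAs (NormedCommRing (BMs X))
noncomputable instance : NormedAlgebra ℝ (BM X) := inferInstanceAs (NormedAlgebra ℝ (BMs X))

/-- Evaluation at a point. -/
noncomputable def evalBM (x : X) : BM X →ₐ[ℝ] ℝ where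
  toFun F := F.1 x
  map_one' := rfl
  map_mul' _ _ := rfl
  map_zero' := rfl
  map_add' _ _ := rfl
  commutes' _ := rfl

omit [DiscreteTopology X] in
lemma BM.abs_le (F : BM X) (x : X) : |evalBM x F| ≤ ‖F‖ := F.1.norm_coe_le_norm x

omit [DiscreteTopology X] in
lemma BM.norm_le {F : BM X} {C : ℝ} (hC : 0 ≤ C) (h : ∀ x, |evalBM x F| ≤ C) : ‖F‖ ≤ C :=
  (BoundedContinuousFunction.norm_le (f := F.1) hC).2 h

omit [DiscreteTopology X] in
lemma BM.ext {F G : BM X} (h : ∀ x, evalBM x F = evalBM x G) : F = G :=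
  Subtype.ext (BoundedContinuousFunction.ext h)

omit [DiscreteTopology X] in
lemma BM.integrable (μ : Measure X) [IsFiniteMeasure μ] (F : BM X) :
    Integrable (fun x => evalBM x F) μ :=
  Integrable.of_bound (Measurable.aestronglyMeasurable F.2) ‖F‖
    (Eventually.of_forall fun x => F.abs_le x)

noncomputable def intState (μ : Measure X) [IsFiniteMeasure μ] : BM X →ₗ[ℝ] ℝ where
  toFun F := ∫ x, evalBM x F ∂μ
  map_add' F G := by
    simp only [map_add]
    exact integral_add (BM.integrable μ F) (BM.integrable μ G)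
  map_smul' c _ := by
    simp only [map_smul, smul_eq_mul, RingHom.id_apply]
    exact integral_const_mul c _

omit [DiscreteTopology X] in
lemma intState_apply (μ : Measure X) [IsFiniteMeasure μ] (F : BM X) :
    intState μ F = ∫ x, evalBM x F ∂μ := rfl

omit [DiscreteTopology X] in
lemma intState_isState (μ : Measure X) [IsProbabilityMeasure μ] : IsState (intState μ) := by
  refine ⟨fun a => ?_, fun a b => ?_, ?_⟩
  · rw [intState_apply]
    refine integral_nonneg fun x => ?_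
    simp only [map_mul]
    exact mul_self_nonneg _
  · rw [intState_apply, intState_apply, ← integral_const_mul]
    refine integral_mono (BM.integrable μ _) ((BM.integrable μ _).const_mul _) fun x => ?_
    simp only [map_mul]
    have := (le_abs_self _).trans (b.abs_le x)
    nlinarith [mul_self_nonneg (evalBM x a)]
  · simp [intState_apply]

noncomputable def koop (S : X ≃ᵐ X) : BM X ≃ₐ[ℝ] BM X where
  toFun F := ⟨F.1.compContinuous ⟨S, continuous_of_discreteTopology⟩,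
    Measurable.comp (g := F.1) (f := S) F.2 S.measurable⟩
  invFun F := ⟨F.1.compContinuous ⟨S.symm, continuous_of_discreteTopology⟩,
    Measurable.comp (g := F.1) (f := S.symm) F.2 S.symm.measurable⟩
  left_inv F := BM.ext fun x => congrArg F.1 (S.apply_symm_apply x)
  right_inv F := BM.ext fun x => congrArg F.1 (S.symm_apply_apply x)
  map_mul' _ _ := rfl
  map_add' _ _ := rfl
  commutes' _ := rfl

lemma koop_apply (S : X ≃ᵐ X) (F : BM X) (x : X) : evalBM x (koop S F) = evalBM (S x) F := rfl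

lemma koop_pow (S : X ≃ᵐ X) (n : ℕ) (F : BM X) (x : X) :
    evalBM x ((koop S ^ n) F) = evalBM (S^[n] x) F := by
  induction n generalizing F with
  | zero => rfl
  | succ n ih => rw [pow_succ, AlgEquiv.mul_apply, ih, koop_apply, Function.iterate_succ_apply']

lemma koop_mem (μ : Measure X) [IsFiniteMeasure μ] {S : X ≃ᵐ X} (hS : MeasurePreserving S μ μ) :
    koop S ∈ pres (intState μ) := by
  refine ⟨fun F => le_antisymm ?_ ?_, fun F => ?_⟩
  · exact BM.norm_le (norm_nonneg _) fun x => F.abs_le (S x)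
  · refine BM.norm_le (norm_nonneg _) fun x => ?_
    have := (koop S F).abs_le (S.symm x)
    rwa [koop_apply, S.apply_symm_apply] at this
  · exact hS.integral_comp' (fun x => evalBM x F)

lemma koop_commute {S S' : X ≃ᵐ X} (h : Function.Commute S S') : Commute (koop S) (koop S') := by
  refine AlgEquiv.ext fun G => BM.ext fun x => ?_
  rw [AlgEquiv.mul_apply, AlgEquiv.mul_apply, koop_apply, koop_apply, koop_apply, koop_apply, h x]

lemma cauchy_aux (μ : Measure X) [IsProbabilityMeasure μ] {ℓ : ℕ} (T : Fin ℓ → X ≃ᵐ X)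
    (hT : ∀ i, MeasurePreserving (T i) μ μ) (hc : ∀ i j, Function.Commute (T i) (T j))
    (f : Fin ℓ → X → ℝ) (hm : ∀ i, Measurable (f i)) (hb : ∀ i x, |f i x| ≤ 1) :
    ∀ ε > 0, ∃ N0 : ℕ, ∀ N ≥ N0, ∀ N' ≥ N0,
      ∫ x, ((N : ℝ)⁻¹ * ∑ n ∈ Finset.range N, ∏ i, f i ((T i)^[n] x) -
        (N' : ℝ)⁻¹ * ∑ n ∈ Finset.range N', ∏ i, f i ((T i)^[n] x)) ^ 2 ∂μ ≤ ε := by
  have : Nonempty X := nonempty_of_isProbabilityMeasure μ
  have : NormOneClass (BM X) := ⟨norm_one (α := X →ᵇ ℝ)⟩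
  let F : Fin ℓ → BM X := fun i => ⟨ofNormedAddCommGroupDiscrete (f i) 1 (hb i), hm i⟩
  have hF : ∀ i x, evalBM x (F i) = f i x := fun i x => rfl
  have h := tao ℓ (BM X) (intState μ) (fun i => koop (T i)) F (intState_isState μ)
    (fun i => koop_mem μ (hT i)) (fun i j => koop_commute (hc i j))
    (fun i => BM.norm_le zero_le_one (hb i))
  intro ε hε
  obtain ⟨N0, hN0⟩ := h ε hε
  refine ⟨N0, fun N hN N' hN' => le_of_eq_of_le ?_ (hN0 N hN N' hN')⟩
  rw [intState_apply]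
  refine integral_congr_ae (Eventually.of_forall fun x => ?_)
  simp only [map_mul, map_sub, avg, term, map_smul, map_sum, map_prod, smul_eq_mul, koop_pow,
    hF, sq]

end Cauchy

variable {X : Type} [MeasurableSpace X] {μ : Measure X} [IsProbabilityMeasure μ]

omit [IsProbabilityMeasure μ] in
lemma norm_sq_eq (G : Lp ℝ 2 μ) {g : X → ℝ} (h : G =ᵐ[μ] g) : ‖G‖ ^ 2 = ∫ x, g x ^ 2 ∂μ := by
  rw [← real_inner_self_eq_norm_sq, L2.inner_def]
  refine integral_congr_ae ?_
  filter_upwards [h] with x hx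
  rw [hx, real_inner_self_eq_norm_sq, Real.norm_eq_abs, sq_abs]

omit [IsProbabilityMeasure μ] in
lemma coe_comb (s : Finset ℕ) (a : ℕ → ℝ) (F : ℕ → Lp ℝ 2 μ) (Φ : ℕ → X → ℝ)
    (h : ∀ k, F k =ᵐ[μ] Φ k) :
    ⇑(∑ k ∈ s, a k • F k) =ᵐ[μ] fun x => ∑ k ∈ s, a k * Φ k x := by
  filter_upwards [Lp.coeFn_finsetSum s (fun k => a k • F k), ae_all_iff.2 h,
    ae_all_iff.2 fun k => Lp.coeFn_smul (a k) (F k)] with x h1 h2 h3
  rw [h1, Finset.sum_apply]
  exact Finset.sum_congr rfl fun k _ => by rw [h3, Pi.smul_apply, h2, smul_eq_mul]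

omit [IsProbabilityMeasure μ] in
lemma coe_avg (s : Finset ℕ) (c : ℝ) (a : ℕ → ℕ) (F : ℕ → Lp ℝ 2 μ) (Φ : ℕ → X → ℝ)
    (h : ∀ k, F k =ᵐ[μ] Φ k) :
    ⇑(c • ∑ k ∈ s, F (a k)) =ᵐ[μ] fun x => c * ∑ k ∈ s, Φ (a k) x := by
  have := coe_comb s (fun _ => c) (fun k => F (a k)) (fun k => Φ (a k)) fun k => h _
  simpa only [← Finset.smul_sum, ← Finset.mul_sum] using this

theorem core {ℓ : ℕ} {σ : ℕ → ℝ} (h0 : ∀ n, 0 ≤ σ n) (ha : Antitone σ)
    (hW : Tendsto (fun M => ∑ k ∈ Finset.range M, σ k) atTop atTop)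
    (p : ℕ → Prop) [DecidablePred p]
    (hp : ∀ ε : ℝ, 0 < ε → ε ≤ 1 → ∀ᶠ M in atTop, ∀ s, ∑ k ∈ Finset.range M,
      ((if p k then (1 : ℝ) else 0) - σ k) * coef ℓ (side ℓ M) s k ≤
        ε * ∑ k ∈ Finset.range M, σ k)
    (T : Fin ℓ → X ≃ᵐ X)
    (hT : ∀ i, MeasurePreserving (T i) μ μ) (hc : ∀ i j, Function.Commute (T i) (T j))
    (f : Fin ℓ → X → ℝ) (hm : ∀ i, Measurable (f i)) (hb : ∀ i x, |f i x| ≤ 1) :
    ∃ (F : ℕ → Lp ℝ 2 μ) (G : Lp ℝ 2 μ), (∀ k, F k =ᵐ[μ] fun x => ∏ i, f i ((T i)^[k] x)) ∧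
      Tendsto (fun N : ℕ => (N : ℝ)⁻¹ • ∑ n ∈ Finset.range N, F (Nat.nth p n)) atTop (𝓝 G) ∧
      Tendsto (fun N : ℕ => (N : ℝ)⁻¹ • ∑ n ∈ Finset.Icc 1 N, F n) atTop (𝓝 G) := by
  let Φ : ℕ → X → ℝ := fun k x => ∏ i, f i ((T i)^[k] x)
  have hΦm : ∀ k, Measurable (Φ k) := fun k =>
    Finset.measurable_prod _ fun i _ => (hm i).comp ((T i).measurable.iterate k)
  have hΦb : ∀ k x, |Φ k x| ≤ 1 := fun k x => by
    rw [Finset.abs_prod]
    exact Finset.prod_le_one (fun _ _ => abs_nonneg _) fun j _ => hb j _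
  have hΦp : ∀ k, MemLp (Φ k) 2 μ := fun k =>
    MemLp.of_bound (hΦm k).aestronglyMeasurable 1 (Eventually.of_forall (hΦb k))
  let F : ℕ → Lp ℝ 2 μ := fun k => (hΦp k).toLp _
  have hF : ∀ k, F k =ᵐ[μ] Φ k := fun k => (hΦp k).coeFn_toLp
  have hFn : ∀ k, ‖F k‖ ≤ 1 := fun k => by
    have h1 : ‖F k‖ ^ 2 ≤ 1 := by
      rw [norm_sq_eq _ (hF k)]
      calc ∫ x, Φ k x ^ 2 ∂μ ≤ ∫ _, (1 : ℝ) ∂μ :=
            integral_mono_of_nonneg (Eventually.of_forall fun x => sq_nonneg _)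
              (integrable_const _) (Eventually.of_forall fun x => by
                have := hΦb k x
                show Φ k x ^ 2 ≤ 1
                rw [← sq_abs]; nlinarith [abs_nonneg (Φ k x)])
        _ = 1 := by simp
    nlinarith [norm_nonneg (F k)]
  have hcau : CauchySeq fun N : ℕ => (N : ℝ)⁻¹ • ∑ n ∈ Finset.range N, F n := by
    let _ : TopologicalSpace X := ⊥
    have : DiscreteTopology X := ⟨rfl⟩
    rw [Metric.cauchySeq_iff]
    intro ε hε
    obtain ⟨N0, hN0⟩ := cauchy_aux μ T hT hc f hm hb (ε ^ 2 / 2) (by positivity)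
    refine ⟨N0, fun N hN N' hN' => ?_⟩
    rw [dist_eq_norm]
    have h1 := hN0 N hN N' hN'
    rw [← norm_sq_eq ((N : ℝ)⁻¹ • ∑ n ∈ Finset.range N, F n -
      (N' : ℝ)⁻¹ • ∑ n ∈ Finset.range N', F n) (by
        filter_upwards [Lp.coeFn_sub ((N : ℝ)⁻¹ • ∑ n ∈ Finset.range N, F n)
          ((N' : ℝ)⁻¹ • ∑ n ∈ Finset.range N', F n),
          coe_avg (Finset.range N) (N : ℝ)⁻¹ id F Φ hF,
          coe_avg (Finset.range N') (N' : ℝ)⁻¹ id F Φ hF] with x h1 h2 h3
        rw [h1, Pi.sub_apply]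
        exact congrArg₂ _ h2 h3)] at h1
    refine lt_of_pow_lt_pow_left₀ 2 hε.le ?_
    have : 0 < ε ^ 2 := by positivity
    linarith
  obtain ⟨G, hG⟩ := cauchySeq_tendsto_of_complete hcau
  set y : ℕ → ℝ := fun k => (if p k then (1 : ℝ) else 0) - σ k with hy
  set W : ℕ → ℝ := fun M => ∑ k ∈ Finset.range M, σ k with hWdef
  have hW0 : ∀ M, 0 ≤ W M := fun M => Finset.sum_nonneg fun k _ => h0 k
  have hsum : ∀ ε : ℝ, 0 < ε → ε ≤ 1 → ∀ᶠ M in atTop,
      |∑ k ∈ Finset.range M, y k| ≤ ε * W M := by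
    intro ε e0 e1
    filter_upwards [hp ε e0 e1] with M hM
    have a1 := box_bound (le_side_pow ℓ M) (side_pos ℓ M) y hM T hT hc (fun _ => 1)
      (fun _ _ => 1) measurable_const (fun _ => measurable_const) (by simp) (by simp)
    have a2 := box_bound (le_side_pow ℓ M) (side_pos ℓ M) y hM T hT hc (fun _ => -1)
      (fun _ _ => 1) measurable_const (fun _ => measurable_const) (by simp) (by simp)
    simp only [Finset.prod_const_one, mul_one, integral_const, probReal_univ, smul_eq_mul,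
      mul_neg, Finset.sum_neg_distrib] at a1 a2
    rw [abs_le]
    constructor <;> linarith
  refine ⟨F, G, hF, tendsto_nth h0 ha hW p ?_ ?_ hG, tendsto_Icc hFn hG⟩
  · rw [isLittleO_iff]
    intro ε hε
    filter_upwards [hsum (min ε 1) (by positivity) (min_le_right _ _)] with M hM
    rw [Real.norm_eq_abs, Real.norm_eq_abs, abs_of_nonneg (hW0 M)]
    exact hM.trans (mul_le_mul_of_nonneg_right (min_le_left _ _) (hW0 M))
  · rw [isLittleO_iff]
    intro ε hε
    filter_upwards [hsum 1 one_pos le_rfl, hp (min (ε ^ 2 / 3) 1) (by positivity)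
      (min_le_right _ _), hW.eventually_gt_atTop 0] with M hM1 hM2 hM3
    change 0 < W M at hM3
    let v : X → ℝ := fun x => ∑ k ∈ Finset.range M, y k * Φ k x
    have hvm : Measurable v := Finset.measurable_sum _ fun k _ => (hΦm k).const_mul _
    have hvb : ∀ x, |v x| ≤ 3 * W M := fun x => by
      refine (Finset.abs_sum_le_sum_abs _ _).trans ?_
      have h1 : ∑ k ∈ Finset.range M, |y k * Φ k x| ≤
          ∑ k ∈ Finset.range M, (y k + 2 * σ k) := by
        refine Finset.sum_le_sum fun k _ => ?_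
        rw [abs_mul]
        refine (mul_le_of_le_one_right (abs_nonneg _) (hΦb k x)).trans ?_
        have := h0 k
        simp only [hy]
        split_ifs <;> rw [abs_le] <;> constructor <;> linarith
      rw [Finset.sum_add_distrib, ← Finset.mul_sum] at h1
      have h2 := (abs_le.1 hM1).2
      change _ ≤ _ + 2 * W M at h1
      linarith
    have a1 := box_bound (le_side_pow ℓ M) (side_pos ℓ M) y hM2 T hT hc
      (fun x => v x / (3 * W M)) f (hvm.div_const _) hm (fun x => by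
        rw [abs_div, abs_of_pos (by positivity : 0 < 3 * W M), div_le_one (by positivity)]
        exact hvb x) hb
    have hint : ∀ k, Integrable (fun x => v x / (3 * W M) * Φ k x) μ := fun k =>
      Integrable.of_bound ((hvm.div_const _).mul (hΦm k)).aestronglyMeasurable 1
        (Eventually.of_forall fun x => by
          rw [Real.norm_eq_abs, abs_mul]
          refine mul_le_one₀ ?_ (abs_nonneg _) (hΦb k x)
          rw [abs_div, abs_of_pos (by positivity : 0 < 3 * W M), div_le_one (by positivity)]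
          exact hvb x)
    have a2 : ∫ x, v x ^ 2 ∂μ = 3 * W M *
        ∑ k ∈ Finset.range M, y k * ∫ x, v x / (3 * W M) * Φ k x ∂μ := by
      simp only [← integral_const_mul]
      rw [← integral_finsetSum _ fun k _ => (hint k).const_mul _, ← integral_const_mul]
      refine integral_congr_ae (Eventually.of_forall fun x => ?_)
      have : ∑ k ∈ Finset.range M, y k * (v x / (3 * W M) * Φ k x) = v x / (3 * W M) * v x := by
        simp only [v, Finset.mul_sum]
        exact Finset.sum_congr rfl fun k _ => by ring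
      beta_reduce
      rw [this]
      field_simp
    have a3 := norm_sq_eq _ (coe_comb (Finset.range M) y F Φ hF)
    rw [Real.norm_eq_abs, abs_of_pos hM3]
    refine le_of_pow_le_pow_left₀ two_ne_zero (by positivity) ?_
    rw [a3, a2]
    have a4 : min (ε ^ 2 / 3) 1 * W M ≤ ε ^ 2 / 3 * W M :=
      mul_le_mul_of_nonneg_right (min_le_left _ _) hM3.le
    have a5 := mul_le_mul_of_nonneg_left (a1.trans a4) (by positivity : 0 ≤ 3 * W M)
    refine a5.trans (le_of_eq ?_)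
    ring

omit [IsProbabilityMeasure μ] in
lemma exists_rep {f : X → ℝ} (hf : MemLp f ⊤ μ) :
    ∃ (c : ℝ) (f' : X → ℝ), Measurable f' ∧ (∀ x, |f' x| ≤ 1) ∧ f =ᵐ[μ] fun x => c * f' x := by
  have h1 : eLpNormEssSup f μ < ⊤ := by simpa using hf.2
  obtain ⟨C, hC⟩ := eLpNormEssSup_lt_top_iff_isBoundedUnder.1 h1
  rw [eventually_map] at hC
  have hc : (0 : ℝ) < C + 1 := by positivity
  refine ⟨C + 1, fun x => max (-1) (min 1 (hf.1.mk f x / (C + 1))),
    measurable_const.max (measurable_const.min (hf.1.measurable_mk.div_const _)), fun x => ?_, ?_⟩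
  · rw [abs_le]
    exact ⟨le_max_left _ _, max_le (by norm_num) (min_le_left _ _)⟩
  · filter_upwards [hC, hf.1.ae_eq_mk] with x h2 h3
    rw [← h3]
    have h4 : |f x| ≤ C := by exact_mod_cast h2
    have h5 := abs_le.1 h4
    rw [min_eq_right, max_eq_right]
    · field_simp
    · rw [le_div_iff₀ hc]; linarith
    · rw [div_le_one hc]; linarith

omit [IsProbabilityMeasure μ] in
lemma tendsto_eLpNorm {u : ℕ → Lp ℝ 2 μ} {G : Lp ℝ 2 μ} (h : Tendsto u atTop (𝓝 G)) (c : ℝ)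
    {v : ℕ → X → ℝ} (hv : ∀ N, v N =ᵐ[μ] fun x => c * u N x) :
    Tendsto (fun N => eLpNorm (fun x => v N x - c * G x) 2 μ) atTop (𝓝 0) := by
  have h1 : Tendsto (fun N => ‖c • (u N - G)‖ₑ) atTop (𝓝 0) := by
    have := (tendsto_sub_nhds_zero_iff.2 h).const_smul c
    rw [smul_zero] at this
    simpa using this.enorm
  refine h1.congr fun N => ?_
  rw [Lp.enorm_def]
  refine eLpNorm_congr_ae ?_
  filter_upwards [Lp.coeFn_smul c (u N - G), Lp.coeFn_sub (u N) G, hv N] with x h2 h3 h4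
  rw [h2, Pi.smul_apply, h3, h4, Pi.sub_apply, smul_eq_mul, mul_sub]

theorem core' {ℓ : ℕ} {σ : ℕ → ℝ} (h0 : ∀ n, 0 ≤ σ n) (ha : Antitone σ)
    (hW : Tendsto (fun M => ∑ k ∈ Finset.range M, σ k) atTop atTop)
    (p : ℕ → Prop) [DecidablePred p]
    (hp : ∀ ε : ℝ, 0 < ε → ε ≤ 1 → ∀ᶠ M in atTop, ∀ s, ∑ k ∈ Finset.range M,
      ((if p k then (1 : ℝ) else 0) - σ k) * coef ℓ (side ℓ M) s k ≤
        ε * ∑ k ∈ Finset.range M, σ k)
    (T : Fin ℓ → X ≃ᵐ X) (f : Fin ℓ → X → ℝ)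
    (hT : ∀ i, MeasurePreserving (T i) μ μ) (hc : ∀ i j, Function.Commute (T i) (T j))
    (hf : ∀ i, MemLp (f i) ⊤ μ) :
    ∃ g : X → ℝ, MemLp g 2 μ ∧
      Tendsto (fun N : ℕ => eLpNorm (fun x => (N : ℝ)⁻¹ *
          (∑ n ∈ Finset.range N, ∏ i, f i ((⇑(T i))^[Nat.nth p n] x)) - g x) 2 μ)
        atTop (𝓝 0) ∧
      Tendsto (fun N : ℕ => eLpNorm (fun x => (N : ℝ)⁻¹ *
          (∑ n ∈ Finset.Icc 1 N, ∏ i, f i ((⇑(T i))^[n] x)) - g x) 2 μ)
        atTop (𝓝 0) := by
  choose c f' hm hb he using fun i => exists_rep (hf i)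
  obtain ⟨F, G, hF, h1, h2⟩ := core h0 ha hW p hp T hT hc f' hm hb
  have hk : ∀ᵐ x ∂μ, ∀ k, ∏ i, f i ((T i)^[k] x) = (∏ i, c i) * ∏ i, f' i ((T i)^[k] x) := by
    have : ∀ᵐ x ∂μ, ∀ k i, f i ((T i)^[k] x) = c i * f' i ((T i)^[k] x) :=
      ae_all_iff.2 fun k => ae_all_iff.2 fun i =>
        ((hT i).iterate k).quasiMeasurePreserving.ae_eq_comp (he i)
    filter_upwards [this] with x hx k
    simp only [hx, Finset.prod_mul_distrib]
  refine ⟨fun x => (∏ i, c i) * G x, (Lp.memLp G).const_mul _,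
    tendsto_eLpNorm h1 _ fun N => ?_, tendsto_eLpNorm h2 _ fun N => ?_⟩
  · filter_upwards [hk, coe_avg (Finset.range N) (N : ℝ)⁻¹ (Nat.nth p) F _ hF] with x h3 h4
    rw [h4]
    simp only [h3, ← Finset.mul_sum]
    ring
  · filter_upwards [hk, coe_avg (Finset.Icc 1 N) (N : ℝ)⁻¹ id F _ hF] with x h3 h4
    simp only [id] at h4
    rw [h4]
    simp only [h3, ← Finset.mul_sum]
    ring

lemma weight_tendsto {σ : ℕ → ℝ} (h0 : ∀ n, 0 ≤ σ n) (ha : Antitone σ) {ℓ : ℕ}
    (hg : Tendsto (fun n : ℕ => (n : ℝ) ^ (1 / ((ℓ : ℝ) + 1)) * σ n) atTop atTop) :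
    Tendsto (fun M => ∑ k ∈ Finset.range M, σ k) atTop atTop := by
  refine tendsto_atTop_mono' _ ?_ hg
  filter_upwards [eventually_ge_atTop 1] with M hM
  refine le_trans (mul_le_mul_of_nonneg_right ?_ (h0 M)) (sum_ge ha M)
  have h1 : (1 : ℝ) ≤ M := by exact_mod_cast hM
  refine (Real.rpow_le_rpow_of_exponent_le h1 ?_).trans_eq (Real.rpow_one _)
  rw [div_le_one (by positivity)]
  have : (0 : ℝ) ≤ ℓ := by positivity
  linarith

theorem main {σ : ℕ → ℝ} (hσ : ∀ n, 0 ≤ σ n ∧ σ n ≤ 1) (ha : Antitone σ)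
    {Ω : Type} [MeasurableSpace Ω] {P : Measure Ω} [IsProbabilityMeasure P] {E : ℕ → Set Ω}
    (hE : ∀ n, MeasurableSet (E n)) (hind : iIndepSet E P)
    (hP : ∀ n, P (E n) = ENNReal.ofReal (σ n)) :
    ∀ᵐ ω ∂P, ∀ ℓ : ℕ, 1 ≤ ℓ →
    Tendsto (fun n : ℕ => (n : ℝ) ^ (1 / ((ℓ : ℝ) + 1)) * σ n) atTop atTop →
    ∀ (X : Type) [MeasurableSpace X] (μ : Measure X) [IsProbabilityMeasure μ]
    (T : Fin ℓ → X ≃ᵐ X) (f : Fin ℓ → X → ℝ),
    (∀ i, MeasurePreserving (⇑(T i)) μ μ) →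
    (∀ i j, Function.Commute ⇑(T i) ⇑(T j)) →
    (∀ i, MemLp (f i) ⊤ μ) →
    ∃ g : X → ℝ, MemLp g 2 μ ∧
      Tendsto (fun N : ℕ => eLpNorm (fun x => (N : ℝ)⁻¹ *
          (∑ n ∈ Finset.range N, ∏ i, f i ((⇑(T i))^[Nat.nth (fun k => ω ∈ E k) n] x)) - g x) 2 μ)
        atTop (𝓝 0) ∧
      Tendsto (fun N : ℕ => eLpNorm (fun x => (N : ℝ)⁻¹ *
          (∑ n ∈ Finset.Icc 1 N, ∏ i, f i ((⇑(T i))^[n] x)) - g x) 2 μ)
        atTop (𝓝 0) := by
  classical
  rw [ae_all_iff]
  intro ℓ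
  by_cases hℓ : 1 ≤ ℓ
  swap
  · exact Eventually.of_forall fun ω h => absurd h hℓ
  by_cases hg : Tendsto (fun n : ℕ => (n : ℝ) ^ (1 / ((ℓ : ℝ) + 1)) * σ n) atTop atTop
  swap
  · exact Eventually.of_forall fun ω _ h => absurd h hg
  have h := ae_all_iff.2 fun r : ℕ => ae_small hσ ha hE hind hP hℓ hg (ε := 1 / ((r : ℝ) + 1))
    (by positivity) (by
      rw [div_le_one (by positivity)]
      have : (0 : ℝ) ≤ r := by positivity
      linarith)
  filter_upwards [h] with ω hω _ _ X _ μ _ T f hT hc hf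
  refine core' (fun n => (hσ n).1) ha (weight_tendsto (fun n => (hσ n).1) ha hg) _ ?_ T f hT hc hf
  intro ε e0 _
  obtain ⟨r, hr⟩ := exists_nat_one_div_lt e0
  filter_upwards [hω r] with M hM s
  refine le_trans (le_of_eq_of_le ?_ (hM s)) (mul_le_mul_of_nonneg_right hr.le
    (Finset.sum_nonneg fun k _ => (hσ k).1))
  refine Finset.sum_congr rfl fun k _ => ?_
  rw [Set.indicator_apply]

end Pool.Agent.MP_154433_an

end MrgPart5

-- marker of a merged file
example : 731051 + 589697 = 731051 + 589697 := rfl
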