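import Mathlib
import Pool.Agent.MP_154433_an.sg.Final

set_option autoImplicit false
open MeasureTheory ProbabilityTheory Filter Topology

namespace Pool.Agent.Results.MP_154433_an.PolynomialRange

theorem result :
    ∀ (σ : ℕ → ℝ), (∀ n, 0 ≤ σ n ∧ σ n ≤ 1) → Antitone σ →
  (∃ a : ℝ, a < 1 ∧ Tendsto (fun n : ℕ => (n : ℝ) ^ a * σ n) atTop atTop) →
  ∀ (Ω : Type) [MeasurableSpace Ω] (P : Measure Ω) [IsProbabilityMeasure P]
    (E : ℕ → Set Ω), (∀ n, MeasurableSet (E n)) → iIndepSet E P →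
    (∀ n, P (E n) = ENNReal.ofReal (σ n)) →
  ∀ᵐ ω ∂P, ∀ (ℓ : ℕ) (k : Fin ℓ → ℤ)
    (X : Type) [MeasurableSpace X] (μ : Measure X) [IsProbabilityMeasure μ]
    (T : X ≃ᵐ X) (f : Fin ℓ → X → ℝ),
    MeasurePreserving (⇑T) μ μ → (∀ i, MemLp (f i) ⊤ μ) →
    ∃ g : X → ℝ, MemLp g 2 μ ∧
      Tendsto (fun N : ℕ => eLpNorm (fun x => (N : ℝ)⁻¹ * (∑ n ∈ Finset.range N, ∏ i,
          f i (((T.toEquiv : Equiv.Perm X) ^ (k i * (Nat.nth (fun m => ω ∈ E m) n : ℕ))) x))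
          - g x) 2 μ) atTop (𝓝 0) ∧
      Tendsto (fun N : ℕ => eLpNorm (fun x => (N : ℝ)⁻¹ * (∑ n ∈ Finset.Icc 1 N, ∏ i,
          f i (((T.toEquiv : Equiv.Perm X) ^ (k i * (n : ℕ))) x)) - g x) 2 μ) atTop (𝓝 0) :=
  Pool.Agent.MP_154433_an.SG.mainAll

end Pool.Agent.Results.MP_154433_an.PolynomialRange
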